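import Pool.Agent.U831.MC.Stm

set_option autoImplicit false

/-!
Project MC, package CLS: exponent sets of languages in the cone of a tally language are finite
unions of pieces.
-/

namespace Pool.Agent.U831.MC

open Pool.Agent.Helper288.Cone

namespace CLS

variable {k : ℕ}

lemma sum_lin {ι : Type} [Fintype ι] (c : Fin k → ℕ) (j : ι → Fin k) (p : ι → ℕ) (x : ι → ℕ) :
    ∑ a, lin c j p x a = ∑ a, c a + ∑ s, x s * p s := by
  classical
  simp only [lin]
  rw [Finset.sum_add_distrib, Finset.sum_comm]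
  congr 1
  apply Finset.sum_congr rfl
  intro s _
  simp

lemma lin_reindex {ι κ : Type} [Fintype ι] [Fintype κ] (e : ι ≃ κ) (c : Fin k → ℕ)
    (j : ι → Fin k) (p : ι → ℕ) (x : ι → ℕ) :
    lin c (fun w => j (e.symm w)) (fun w => p (e.symm w)) (fun w => x (e.symm w)) =
      lin c j p x := by
  funext b
  simp only [lin]
  congr 1
  exact Equiv.sum_comp e.symm (fun s => if j s = b then x s * p s else 0)

lemma piece (S : Set ℕ) (B : Set ((Fin k → ℕ) × (Fin k → ℕ))) (hB : Lin (Per k) B) :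
    ∃ t : Pc k, ∀ n, (∃ m, (m, n) ∈ B ∧ ∑ a, m a ∈ S) ↔ t.Mem S n := by
  classical
  obtain ⟨c, Ω, h1, h2⟩ := hB
  have h1' : ∀ s : Ω, ∃ (i j : Fin k) (q p : ℕ), s.1 = (Pi.single i q, Pi.single j p) :=
    fun s => h1 s.1 s.2
  choose i j q p hs using h1'
  have hsum : ∀ x : Ω → ℕ, c + ∑ s, x s • s.1 = (lin c.1 i q x, lin c.2 j p x) := by
    intro x
    have e1 : ∑ s, x s • s.1 = (∑ s, x s • Pi.single (i s) (q s), ∑ s, x s • Pi.single (j s) (p s)) := by
      rw [Prod.ext_iff]
      constructor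
      · rw [Prod.fst_sum]
        apply Finset.sum_congr rfl
        intro s _
        rw [hs s]; rfl
      · rw [Prod.snd_sum]
        apply Finset.sum_congr rfl
        intro s _
        rw [hs s]; rfl
    have e2 : ∀ (d : Fin k → ℕ) (i : Ω → Fin k) (q : Ω → ℕ),
        d + ∑ s, x s • Pi.single (i s) (q s) = lin d i q x := by
      intro d i q
      funext b
      simp only [lin, Pi.add_apply, Finset.sum_apply, Pi.smul_apply, smul_eq_mul]
      congr 1
      apply Finset.sum_congr rfl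
      intro s _
      by_cases hb : i s = b
      · subst hb; simp
      · rw [if_neg hb, Pi.single_eq_of_ne (Ne.symm hb), mul_zero]
    rw [e1]
    have : c + (∑ s, x s • Pi.single (i s) (q s), ∑ s, x s • Pi.single (j s) (p s)) =
      (c.1 + ∑ s, x s • Pi.single (i s) (q s), c.2 + ∑ s, x s • Pi.single (j s) (p s)) := rfl
    rw [this, e2, e2]
  let e : Ω ≃ Fin (Fintype.card Ω) := Fintype.equivFin Ω
  refine ⟨⟨Fintype.card Ω, ∑ a, c.1 a, c.2, fun w => q (e.symm w), fun w => p (e.symm w),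
    fun w => j (e.symm w)⟩, fun n => ?_⟩
  constructor
  · rintro ⟨m, hm, hc⟩
    obtain ⟨y, hy, hmy⟩ := (h2 _).1 hm
    obtain ⟨x, rfl⟩ := AddSubmonoid.mem_closure_finset'.1 hy
    rw [hsum, Prod.mk.injEq] at hmy
    refine ⟨fun w => x (e.symm w), ?_, ?_⟩
    · rw [hmy.1, sum_lin] at hc
      have h3 : ∑ w, x (e.symm w) * q (e.symm w) = ∑ s, x s * q s :=
        Equiv.sum_comp e.symm (fun s => x s * q s)
      change (∑ a, c.1 a) + ∑ w, x (e.symm w) * q (e.symm w) ∈ S
      rw [h3]; exact hc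
    · rw [hmy.2]
      exact (lin_reindex e c.2 j p x).symm
  · rintro ⟨y, hy, hn⟩
    have hy' : (∑ a, c.1 a) + ∑ w, y w * q (e.symm w) ∈ S := hy
    have hn' : n = lin c.2 (fun w => j (e.symm w)) (fun w => p (e.symm w)) y := hn
    have ey : y = fun w => (fun s => y (e s)) (e.symm w) := by
      funext w; simp
    have h3 : ∑ w, y w * q (e.symm w) = ∑ s, y (e s) * q s := by
      rw [← Equiv.sum_comp e (fun w => y w * q (e.symm w))]
      simp
    refine ⟨lin c.1 i q (fun s => y (e s)), ?_, ?_⟩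
    · rw [h2]
      refine ⟨_, AddSubmonoid.mem_closure_finset'.2 ⟨fun s => y (e s), rfl⟩, ?_⟩
      rw [hsum, Prod.mk.injEq]
      refine ⟨rfl, ?_⟩
      rw [hn', ey]
      have h4 := lin_reindex e c.2 j p (fun s => y (e s))
      simpa using h4
    · rw [sum_lin, ← h3]; exact hy'

lemma of_slin (S : Set ℕ) (A : Set ((Fin k → ℕ) × (Fin k → ℕ))) (hA : SLin (Per k) A) :
    Cls S {n | ∃ m, (m, n) ∈ A ∧ ∑ a, m a ∈ S} := by
  obtain ⟨F, h1, h2, rfl⟩ := hA
  induction F, h1 using Set.Finite.induction_on with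
  | empty => exact ⟨[], fun n => by simp⟩
  | @insert B F _ _ ih =>
    obtain ⟨L, hL⟩ := ih fun C hC => h2 C (Set.mem_insert_of_mem _ hC)
    obtain ⟨t, ht⟩ := piece S B (h2 B (Set.mem_insert _ _))
    refine ⟨t :: L, fun n => ?_⟩
    rw [List.exists_mem_cons_iff, ← hL, ← ht]
    rw [Set.sUnion_insert]
    constructor
    · rintro ⟨m, hm | hm, hc⟩
      · left; exact ⟨m, hm, hc⟩
      · right; exact ⟨m, hm, hc⟩
    · rintro (⟨m, hm, hc⟩ | ⟨m, hm, hc⟩)
      · exact ⟨m, Or.inl hm, hc⟩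
      · exact ⟨m, Or.inr hm, hc⟩

lemma length_word (n : Fin k → ℕ) : (word n).length = ∑ a, n a := by
  rw [word_eq, List.length_flatten, List.map_ofFn, List.sum_ofFn]
  simp

lemma flatMap_const {W : Type} (z : List W) :
    z.flatMap (fun _ => [(0 : Fin 1)]) = List.replicate z.length (0 : Fin 1) := by
  induction z with
  | nil => rfl
  | cons a z ih => rw [List.flatMap_cons, ih, List.length_cons, List.replicate_succ]; rfl

end CLS

open CLS in
theorem t_CLS : PCls := by
  intro S k X L w hk h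
  have : NeZero k := ⟨by omega⟩
  obtain ⟨T1, hT1⟩ := h.exists_tr
  let T0 : Tr (Fin k) (Fin 1) :=
    nivatTr (fun j : Fin k => [j]) (fun _ => [(0 : Fin 1)]) (allDFA (Fin k))
  let T2 : Tr X (Fin k) := nivatTr w (fun j : Fin k => [j]) (allDFA (Fin k))
  have hT0 : ∀ (u : List (Fin k)) (v : List (Fin 1)),
      T0.rel u v ↔ v = List.replicate u.length (0 : Fin 1) := by
    intro u v
    rw [nivatTr_rel]
    constructor
    · rintro ⟨z, -, h1, h2⟩
      have : z = u := by rw [← h1]; simp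
      rw [← this, ← h2, flatMap_const]
    · intro h1
      exact ⟨u, allDFA_accepts _ _, by simp, by rw [h1, flatMap_const]⟩
  have hT2 : ∀ (v : List X) (z : List (Fin k)), T2.rel v z ↔ z.flatMap w = v := by
    intro v z
    rw [nivatTr_rel]
    constructor
    · rintro ⟨z', -, h1, h2⟩
      have : z' = z := by
        rw [← h2]; simp
      rw [← this]; exact h1
    · intro h1
      exact ⟨z, allDFA_accepts _ _, h1, by simp⟩
  have hT : ∀ m n : Fin k → ℕ, (m, n) ∈ PP ((T0.comp T1).comp T2) ↔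
      T1.rel (List.replicate (∑ a, m a) (0 : Fin 1)) (wpow w n) := by
    intro m n
    rw [mem_PP, Tr.comp_rel]
    constructor
    · rintro ⟨v, h1, h2⟩
      rw [hT2, flatMap_word] at h2
      rw [Tr.comp_rel] at h1
      obtain ⟨v', h3, h4⟩ := h1
      rw [hT0, length_word] at h3
      rw [h2, ← h3]; exact h4
    · intro h1
      refine ⟨wpow w n, (Tr.comp_rel _ _ _ _).2 ⟨_, (hT0 _ _).2 rfl, ?_⟩,
        (hT2 _ _).2 (flatMap_word w n)⟩
      rw [length_word]; exact h1
  have e : {n | wpow w n ∈ L} =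
      {n | ∃ m, (m, n) ∈ PP ((T0.comp T1).comp T2) ∧ ∑ a, m a ∈ S} := by
    ext n
    change wpow w n ∈ L ↔ _
    rw [hT1]
    constructor
    · rintro ⟨u, ⟨s, hs, rfl⟩, hr⟩
      refine ⟨Pi.single 0 s, (hT _ n).2 ?_, ?_⟩
      · rw [Finset.sum_pi_single']
        simpa using hr
      · rw [Finset.sum_pi_single']
        simpa using hs
    · rintro ⟨m, hm, hc⟩
      exact ⟨_, ⟨_, hc, rfl⟩, (hT m n).1 hm⟩
  rw [e]
  exact of_slin S _ (PP_slin _)

end Pool.Agent.U831.MC
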