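import Pool.Agent.U831.MC.Stm

set_option autoImplicit false

/-!
Project MC (MP_3a8f7c_lc, Q2), package FIX (helper411): fixing one coordinate of a piece, and
slices of pieces.
-/

namespace Pool.Agent.U831.MC

open Pool.Agent.Helper288.Cone

namespace FixPkg

variable {k : ℕ}

/-- a finite indexed family of pieces gives a list -/
lemma exists_list {k k' : ℕ} (S : Set ℕ) (L : List (Pc k)) (P : Pc k → (Fin k' → ℕ) → Prop)
    (h : ∀ t : Pc k, ∃ L' : List (Pc k'), ∀ n, P t n ↔ ∃ t' ∈ L', t'.Mem S n) :
    ∃ L' : List (Pc k'), ∀ n, (∃ t ∈ L, P t n) ↔ ∃ t' ∈ L', t'.Mem S n := by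
  choose F hF using h
  refine ⟨L.flatMap F, fun n => ?_⟩
  simp only [List.mem_flatMap]
  constructor
  · rintro ⟨t, ht, hp⟩
    obtain ⟨t', ht', hm⟩ := (hF t n).1 hp
    exact ⟨t', ⟨t, ht, ht'⟩, hm⟩
  · rintro ⟨t', ⟨t, ht, ht'⟩, hm⟩
    exact ⟨t, ht, (hF t n).2 ⟨t', ht', hm⟩⟩

/-- a finite indexed family of pieces gives a list -/
lemma exists_list' {k' : ℕ} (S : Set ℕ) (Y : Type) [Fintype Y] (C : Y → Prop)
    (G : Y → Pc k') (P : (Fin k' → ℕ) → Prop)
    (h : ∀ n, P n ↔ ∃ y, C y ∧ (G y).Mem S n) :
    ∃ L' : List (Pc k'), ∀ n, P n ↔ ∃ t' ∈ L', t'.Mem S n := by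
  classical
  refine ⟨((Finset.univ.filter C).toList).map G, fun n => ?_⟩
  rw [h n]
  constructor
  · rintro ⟨y, hy, hm⟩
    exact ⟨G y, List.mem_map.2 ⟨y, by simp [hy], rfl⟩, hm⟩
  · rintro ⟨t', ht', hm⟩
    obtain ⟨y, hy, rfl⟩ := List.mem_map.1 ht'
    exact ⟨y, by simpa using hy, hm⟩

/-- the piece for FIX -/
def fixP (t : Pc k) (l : Fin k) (y : Fin t.r → ℕ) : Pc k where
  r := t.r + 1
  b := t.b + ∑ w, if t.j w = l ∧ 0 < t.p w then y w * t.q w else 0
  c := Function.update t.c l 0
  q := Fin.cons 0 (fun w => if t.j w = l ∧ 0 < t.p w then 0 else t.q w)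
  p := Fin.cons 1 (fun w => if t.j w = l ∧ 0 < t.p w then 0 else t.p w)
  j := Fin.cons l t.j

lemma fixP_val (t : Pc k) (l : Fin k) (y : Fin t.r → ℕ) (x : Fin (t.r + 1) → ℕ) :
    (fixP t l y).val x = t.b + ∑ w, ((if t.j w = l ∧ 0 < t.p w then y w * t.q w else 0) +
      x w.succ * (if t.j w = l ∧ 0 < t.p w then 0 else t.q w)) := by
  have h : (fixP t l y).val x = t.b + ∑ w, (if t.j w = l ∧ 0 < t.p w then y w * t.q w else 0) +
      ∑ w : Fin (t.r + 1), x w * (Fin.cons 0 (fun w => if t.j w = l ∧ 0 < t.p w then 0 else t.q w) :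
        Fin (t.r + 1) → ℕ) w := rfl
  rw [h, Fin.sum_univ_succ]
  simp only [Fin.cons_zero, Fin.cons_succ, mul_zero, zero_add]
  rw [add_assoc, ← Finset.sum_add_distrib]

lemma fixP_pt (t : Pc k) (l : Fin k) (y : Fin t.r → ℕ) (x : Fin (t.r + 1) → ℕ) (b : Fin k) :
    (fixP t l y).pt x b = Function.update t.c l 0 b + ((if l = b then x 0 else 0) +
      ∑ w, (if t.j w = b then x w.succ * (if t.j w = l ∧ 0 < t.p w then 0 else t.p w) else 0)) := by
  have h : (fixP t l y).pt x b = Function.update t.c l 0 b +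
      ∑ w : Fin (t.r + 1), (if (Fin.cons l t.j : Fin (t.r + 1) → Fin k) w = b then x w *
        (Fin.cons 1 (fun w => if t.j w = l ∧ 0 < t.p w then 0 else t.p w) :
        Fin (t.r + 1) → ℕ) w else 0) := rfl
  rw [h, Fin.sum_univ_succ]
  simp only [Fin.cons_zero, Fin.cons_succ, mul_one]

lemma fix_piece (S : Set ℕ) (l : Fin k) (a : ℕ) (t : Pc k) :
    ∃ L' : List (Pc k), ∀ n : Fin k → ℕ, t.Mem S (Function.update n l a) ↔
      ∃ t' ∈ L', t'.Mem S n := by
  classical
  apply exists_list' S (Fin t.r → Fin (a + 1))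
    (fun y => t.c l + ∑ w, (if t.j w = l ∧ 0 < t.p w then (y w : ℕ) * t.p w else 0) = a)
    (fun y => fixP t l (fun w => (y w : ℕ)))
  intro n
  constructor
  · rintro ⟨x, hx, hn⟩
    have hl : t.c l + ∑ w, (if t.j w = l then x w * t.p w else 0) = a := by
      have := congrFun hn l
      rw [Function.update_self] at this
      rw [this]
      rfl
    have hI : ∀ w, (if t.j w = l then x w * t.p w else 0) =
        (if t.j w = l ∧ 0 < t.p w then x w * t.p w else 0) := by
      intro w
      by_cases h1 : t.j w = l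
      · rcases Nat.eq_zero_or_pos (t.p w) with h0 | h0
        · simp [h1, h0]
        · simp [h1, h0]
      · simp [h1]
    have hle : ∀ w, t.j w = l ∧ 0 < t.p w → x w ≤ a := by
      rintro w ⟨h1, h2⟩
      have h3 : (if t.j w = l then x w * t.p w else 0) ≤
          ∑ w, (if t.j w = l then x w * t.p w else 0) :=
        Finset.single_le_sum (f := fun w => if t.j w = l then x w * t.p w else 0)
          (fun _ _ => Nat.zero_le _) (Finset.mem_univ w)
      rw [if_pos h1] at h3
      have h4 : x w ≤ x w * t.p w := Nat.le_mul_of_pos_right _ h2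
      omega
    obtain ⟨y, hy⟩ : ∃ y : Fin t.r → Fin (a + 1), ∀ w, (t.j w = l ∧ 0 < t.p w) →
        (y w : ℕ) = x w :=
      ⟨fun w => if h : t.j w = l ∧ 0 < t.p w then ⟨x w, Nat.lt_succ_of_le (hle w h)⟩ else 0,
        fun w h => by simp only [dif_pos h]⟩
    obtain ⟨x', hx0, hxs⟩ : ∃ x' : Fin (t.r + 1) → ℕ, x' 0 = n l ∧ ∀ w : Fin t.r,
        x' w.succ = x w := ⟨Fin.cons (n l) x, by simp, fun w => by simp⟩
    refine ⟨y, ?_, x', ?_, ?_⟩
    · rw [Finset.sum_congr rfl (fun w _ => hI w)] at hl
      refine Eq.trans ?_ hl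
      congr 1
      apply Finset.sum_congr rfl
      intro w _
      by_cases h : t.j w = l ∧ 0 < t.p w
      · rw [if_pos h, if_pos h, hy w h]
      · rw [if_neg h, if_neg h]
    · have hv : (fixP t l (fun w => (y w : ℕ))).val x' = t.val x := by
        rw [fixP_val]
        simp only [Pc.val]
        congr 1
        apply Finset.sum_congr rfl
        intro w _
        rw [hxs]
        by_cases h : t.j w = l ∧ 0 < t.p w
        · rw [if_pos h, if_pos h, hy w h, mul_zero, add_zero]
        · rw [if_neg h, if_neg h, zero_add]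
      rw [hv]
      exact hx
    · funext b
      rw [fixP_pt]
      by_cases hb : l = b
      · subst hb
        rw [Function.update_self, if_pos rfl, zero_add, hx0]
        symm
        rw [Nat.add_eq_left]
        apply Finset.sum_eq_zero
        intro w _
        by_cases h1 : t.j w = l
        · rcases Nat.eq_zero_or_pos (t.p w) with h0 | h0
          · simp [h0]
          · simp [h1, h0]
        · simp [h1]
      · rw [Function.update_of_ne (Ne.symm hb), if_neg hb, zero_add]
        have h5 := congrFun hn b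
        rw [Function.update_of_ne (Ne.symm hb)] at h5
        rw [h5]
        simp only [Pc.pt, lin]
        congr 1
        apply Finset.sum_congr rfl
        intro w _
        rw [hxs]
        by_cases h1 : t.j w = b
        · have h2 : ¬ (t.j w = l ∧ 0 < t.p w) := fun h => hb (h.1.symm.trans h1)
          rw [if_pos h1, if_pos h1, if_neg h2]
        · rw [if_neg h1, if_neg h1]
  · rintro ⟨y, hy, x', hx', hn⟩
    change Fin (t.r + 1) → ℕ at x'
    refine ⟨fun w => if t.j w = l ∧ 0 < t.p w then (y w : ℕ) else x' w.succ, ?_, ?_⟩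
    · have hv : t.val (fun w => if t.j w = l ∧ 0 < t.p w then (y w : ℕ) else x' w.succ) =
          (fixP t l (fun w => (y w : ℕ))).val x' := by
        rw [fixP_val]
        simp only [Pc.val]
        congr 1
        apply Finset.sum_congr rfl
        intro w _
        by_cases h : t.j w = l ∧ 0 < t.p w
        · rw [if_pos h, if_pos h, if_pos h]; simp
        · rw [if_neg h, if_neg h, if_neg h]; simp
      rw [hv]
      exact hx'
    · funext b
      by_cases hb : b = l
      · subst hb
        rw [Function.update_self]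
        simp only [Pc.pt, lin]
        refine hy.symm.trans ?_
        congr 1
        apply Finset.sum_congr rfl
        intro w _
        by_cases h1 : t.j w = b
        · rcases Nat.eq_zero_or_pos (t.p w) with h0 | h0
          · simp [h0]
          · simp [h1, h0]
        · simp [h1]
      · rw [Function.update_of_ne hb]
        have h5 := congrFun hn b
        rw [h5, fixP_pt]
        simp only [Pc.pt, lin]
        rw [Function.update_of_ne hb, if_neg (Ne.symm hb), zero_add]
        congr 1
        apply Finset.sum_congr rfl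
        intro w _
        by_cases h1 : t.j w = b
        · have h2 : ¬ (t.j w = l ∧ 0 < t.p w) := fun h => hb (h1.symm.trans h.1)
          rw [if_pos h1, if_pos h1, if_neg h2, if_neg h2]
        · rw [if_neg h1, if_neg h1]

/-- the piece for SLC -/
def slcP (t : Pc k) (l : Fin k) (y : Fin t.r → ℕ) : Pc 1 where
  r := t.r
  b := t.b + ∑ w, if t.j w ≠ l ∧ 0 < t.p w then y w * t.q w else 0
  c := fun _ => t.c l
  q := fun w => if t.j w ≠ l ∧ 0 < t.p w then 0 else t.q w
  p := fun w => if t.j w = l then t.p w else 0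
  j := fun _ => 0

lemma slcP_val (t : Pc k) (l : Fin k) (y : Fin t.r → ℕ) (x : Fin t.r → ℕ) :
    (slcP t l y).val x = t.b + ∑ w, ((if t.j w ≠ l ∧ 0 < t.p w then y w * t.q w else 0) +
      x w * (if t.j w ≠ l ∧ 0 < t.p w then 0 else t.q w)) := by
  have h : (slcP t l y).val x = t.b + ∑ w, (if t.j w ≠ l ∧ 0 < t.p w then y w * t.q w else 0) +
      ∑ w, x w * (if t.j w ≠ l ∧ 0 < t.p w then 0 else t.q w) := rfl
  rw [h, add_assoc, ← Finset.sum_add_distrib]

lemma slcP_pt (t : Pc k) (l : Fin k) (y : Fin t.r → ℕ) (x : Fin t.r → ℕ) :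
    (slcP t l y).pt x 0 = t.c l + ∑ w, x w * (if t.j w = l then t.p w else 0) := by
  have h : (slcP t l y).pt x 0 = t.c l +
      ∑ w, (if (0 : Fin 1) = 0 then x w * (if t.j w = l then t.p w else 0) else 0) := rfl
  rw [h]
  simp

lemma slc_piece (S : Set ℕ) (l : Fin k) (n : Fin k → ℕ) (t : Pc k) :
    ∃ L' : List (Pc 1), ∀ m : Fin 1 → ℕ, t.Mem S (Function.update n l (m 0)) ↔
      ∃ t' ∈ L', t'.Mem S m := by
  classical
  apply exists_list' S (Fin t.r → Fin (∑ i, n i + 1))
    (fun y => ∀ a, a ≠ l → t.c a + ∑ w, (if t.j w = a then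
      (if 0 < t.p w then (y w : ℕ) * t.p w else 0) else 0) = n a)
    (fun y => slcP t l (fun w => (y w : ℕ)))
  intro m
  constructor
  · rintro ⟨x, hx, hn⟩
    have hl : ∀ a, a ≠ l → t.c a + ∑ w, (if t.j w = a then x w * t.p w else 0) = n a := by
      intro a ha
      have := congrFun hn a
      rw [Function.update_of_ne ha] at this
      rw [this]
      rfl
    have hle : ∀ w, t.j w ≠ l ∧ 0 < t.p w → x w ≤ ∑ i, n i := by
      rintro w ⟨h1, h2⟩
      have h3 : (if t.j w = t.j w then x w * t.p w else 0) ≤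
          ∑ w', (if t.j w' = t.j w then x w' * t.p w' else 0) :=
        Finset.single_le_sum (f := fun w' => if t.j w' = t.j w then x w' * t.p w' else 0)
          (fun _ _ => Nat.zero_le _) (Finset.mem_univ w)
      rw [if_pos rfl] at h3
      have h4 : x w ≤ x w * t.p w := Nat.le_mul_of_pos_right _ h2
      have h5 := hl (t.j w) h1
      have h6 : n (t.j w) ≤ ∑ i, n i :=
        Finset.single_le_sum (f := n) (fun _ _ => Nat.zero_le _) (Finset.mem_univ _)
      omega
    obtain ⟨y, hy⟩ : ∃ y : Fin t.r → Fin (∑ i, n i + 1), ∀ w, (t.j w ≠ l ∧ 0 < t.p w) →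
        (y w : ℕ) = x w :=
      ⟨fun w => if h : t.j w ≠ l ∧ 0 < t.p w then ⟨x w, Nat.lt_succ_of_le (hle w h)⟩ else 0,
        fun w h => by simp only [dif_pos h]⟩
    refine ⟨y, ?_, x, ?_, ?_⟩
    · intro a ha
      rw [← hl a ha]
      congr 1
      apply Finset.sum_congr rfl
      intro w _
      by_cases h1 : t.j w = a
      · rw [if_pos h1, if_pos h1]
        rcases Nat.eq_zero_or_pos (t.p w) with h0 | h0
        · simp [h0]
        · have h2 : t.j w ≠ l ∧ 0 < t.p w := ⟨h1 ▸ ha, h0⟩
          rw [if_pos h0, hy w h2]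
      · rw [if_neg h1, if_neg h1]
    · have hv : (slcP t l (fun w => (y w : ℕ))).val x = t.val x := by
        rw [slcP_val]
        simp only [Pc.val]
        congr 1
        apply Finset.sum_congr rfl
        intro w _
        by_cases h : t.j w ≠ l ∧ 0 < t.p w
        · rw [if_pos h, if_pos h, hy w h, mul_zero, add_zero]
        · rw [if_neg h, if_neg h, zero_add]
      rw [hv]
      exact hx
    · funext b
      have hb : b = 0 := Subsingleton.elim _ _
      subst hb
      have h5 := congrFun hn l
      rw [Function.update_self] at h5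
      rw [h5, slcP_pt]
      simp only [Pc.pt, lin]
      congr 1
      apply Finset.sum_congr rfl
      intro w _
      by_cases h1 : t.j w = l
      · simp [h1]
      · simp [h1]
  · rintro ⟨y, hy, x', hx', hn⟩
    change Fin t.r → ℕ at x'
    refine ⟨fun w => if t.j w ≠ l ∧ 0 < t.p w then (y w : ℕ) else x' w, ?_, ?_⟩
    · have hv : t.val (fun w => if t.j w ≠ l ∧ 0 < t.p w then (y w : ℕ) else x' w) =
          (slcP t l (fun w => (y w : ℕ))).val x' := by
        rw [slcP_val]
        simp only [Pc.val]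
        congr 1
        apply Finset.sum_congr rfl
        intro w _
        by_cases h : t.j w ≠ l ∧ 0 < t.p w
        · rw [if_pos h, if_pos h, if_pos h]; simp
        · rw [if_neg h, if_neg h, if_neg h]; simp
      rw [hv]
      exact hx'
    · funext b
      by_cases hb : b = l
      · subst hb
        rw [Function.update_self]
        have h5 := congrFun hn 0
        rw [h5, slcP_pt]
        simp only [Pc.pt, lin]
        congr 1
        apply Finset.sum_congr rfl
        intro w _
        by_cases h1 : t.j w = b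
        · simp [h1]
        · simp [h1]
      · rw [Function.update_of_ne hb, ← hy b hb]
        simp only [Pc.pt, lin]
        congr 1
        apply Finset.sum_congr rfl
        intro w _
        by_cases h1 : t.j w = b
        · rw [if_pos h1, if_pos h1]
          rcases Nat.eq_zero_or_pos (t.p w) with h0 | h0
          · simp [h0]
          · have h2 : t.j w ≠ l ∧ 0 < t.p w := ⟨h1 ▸ hb, h0⟩
            rw [if_pos h0, if_pos h2]
        · rw [if_neg h1, if_neg h1]

end FixPkg

open FixPkg in
theorem t_FIX : PFix := by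
  rintro S k K l a ⟨L, hL⟩
  obtain ⟨L', hL'⟩ := exists_list S L (fun t n => t.Mem S (Function.update n l a))
    (fun t => fix_piece S l a t)
  refine ⟨L', fun n => ?_⟩
  rw [← hL' n, Set.mem_ofPred_eq, hL]

open FixPkg in
theorem t_SLC : PSlc := by
  rintro S k K l n ⟨L, hL⟩
  obtain ⟨L', hL'⟩ := exists_list S L (fun t (m : Fin 1 → ℕ) => t.Mem S (Function.update n l (m 0)))
    (fun t => slc_piece S l n t)
  refine ⟨L', fun m => ?_⟩
  rw [← hL' m, Set.mem_ofPred_eq, hL]

end Pool.Agent.U831.MC
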