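import Pool.Agent.U831.MC.Stm

set_option autoImplicit false

/-!
Package HIT of project MC (MP_3a8f7c_lc): hitting an arithmetic progression. (helper329)
-/

namespace Pool.Agent.U831.MC

open Pool.Agent.Helper288.Cone

theorem t_HIT : PHit := by
  intro S u hS C Q hQ
  obtain ⟨y₀, hy₀⟩ := hS.hit (C + 2)
  obtain ⟨s₀, hs₀⟩ := hS.res Q hQ
  refine ⟨y₀ + 2 * s₀ + 2, ?_⟩
  intro Y v g hY hg hgQ hv hvC
  have hYg : Y ≤ Y * g := Nat.le_mul_of_pos_right Y hg
  -- large elements of `S` have the residue of `v` modulo `g`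
  have hres : ∀ s ∈ S, s₀ ≤ s → s ≡ v [MOD g] := fun s hs h =>
    ((hs₀ s hs h).trans hv.symm).of_dvd hgQ
  have hbig : ∀ (t s : ℕ), 2 * s₀ ≤ t → s ≤ t → (C + 2) * (t - s) ≤ t → s₀ ≤ s := by
    intro t s h1 h2 h3
    have h4 : 2 * (t - s) ≤ (C + 2) * (t - s) := Nat.mul_le_mul_right _ (by omega)
    omega
  constructor
  · obtain ⟨s, hs, hst, hc⟩ := hy₀ (v + Y * g) (by omega)
    have hs1 := hbig _ s (by omega) hst hc
    have hle : v + Y * g - s ≤ Y * g := by
      by_contra hcon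
      push Not at hcon
      have h1 : (C + 2) * (Y * g + 1) ≤ (C + 2) * (v + Y * g - s) :=
        Nat.mul_le_mul_left _ hcon
      have h2 : C * Y ≤ C * (Y * g) := Nat.mul_le_mul_left _ hYg
      nlinarith
    have hvs : v ≤ s := by omega
    have hdvd : g ∣ s - v := (Nat.modEq_iff_dvd' hvs).mp (hres s hs hs1).symm
    obtain ⟨y, hy⟩ := hdvd
    refine ⟨y, ?_, ?_⟩
    · have : g * y ≤ g * Y := by rw [← hy, Nat.mul_comm g Y]; omega
      exact Nat.le_of_mul_le_mul_left this hg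
    · have : v + y * g = s := by rw [Nat.mul_comm y g, ← hy]; omega
      rw [this]; exact hs
  · intro hYv
    obtain ⟨s, hs, hst, hc⟩ := hy₀ v (by omega)
    have hs1 := hbig _ s (by omega) hst hc
    have hle : v - s ≤ Y := by
      by_contra hcon
      push Not at hcon
      have h1 : (C + 2) * (Y + 1) ≤ (C + 2) * (v - s) := Nat.mul_le_mul_left _ hcon
      nlinarith
    have hdvd : g ∣ v - s := (Nat.modEq_iff_dvd' hst).mp (hres s hs hs1)
    obtain ⟨y, hy⟩ := hdvd
    refine ⟨y, ?_, s, hs, ?_⟩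
    · have h1 : g * y ≤ Y := by omega
      exact le_trans (Nat.le_mul_of_pos_left y hg) h1
    · rw [Nat.mul_comm y g, ← hy]; omega

end Pool.Agent.U831.MC
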