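import Pool.Agent.U831.MC.Stm

set_option autoImplicit false

/-!
Package KBG of project MC (MP_3a8f7c_lc, Q2): pieces with two slopes contain everything large.
-/

namespace Pool.Agent.U831.MC

open Pool.Agent.Helper288.Cone

lemma kbg_val_add_single {k : ℕ} (t : Pc k) (x : Fin t.r → ℕ) (w : Fin t.r) (m : ℕ) :
    t.val (x + Pi.single w m) = t.val x + m * t.q w := by
  unfold Pc.val
  rw [add_assoc]
  congr 1
  have h1 : ∀ r : Fin t.r, (x + (Pi.single w m : Fin t.r → ℕ)) r * t.q r =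
      x r * t.q r + (if r = w then m * t.q w else 0) := by
    intro r
    by_cases hr : r = w
    · subst hr
      simp only [Pi.add_apply, Pi.single_eq_same, if_true]
      ring
    · simp [hr]
  rw [Finset.sum_congr rfl (fun r _ => h1 r), Finset.sum_add_distrib]
  simp

lemma kbg_pt_add_single {k : ℕ} (t : Pc k) (x : Fin t.r → ℕ) (w : Fin t.r) (m : ℕ) :
    t.pt (x + Pi.single w m) = t.pt x + Pi.single (t.j w) (m * t.p w) :=
  lin_add_single t.c t.j t.p x w m

lemma kbg_le_pt {k : ℕ} (t : Pc k) (x : Fin t.r → ℕ) (w : Fin t.r) :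
    x w * t.p w ≤ t.pt x (t.j w) := by
  have h1 : x w * t.p w ≤ ∑ s, (if t.j s = t.j w then x s * t.p s else 0) := by
    have h2 := Finset.single_le_sum (f := fun s => if t.j s = t.j w then x s * t.p s else 0)
      (fun i _ => Nat.zero_le _) (Finset.mem_univ w)
    simpa using h2
  exact le_trans h1 (Nat.le_add_left _ _)

theorem t_KBG : PKbg := by
  intro hHit S u hS k t Q hQ hdiv hfree
  set P : ℕ := ∑ w, t.p w with hP
  set Q1 : ℕ := ∑ w, t.q w with hQ1
  set C0 : ℕ := ∑ a, t.c a with hC0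
  obtain ⟨Y0, hY0⟩ := hHit S u hS (t.b + Q1 * (C0 + 2 * (P * P))) Q hQ
  refine ⟨C0 + P * P * (Y0 + 2) + 1, ?_⟩
  intro n l w1 w2 hN hj1 hj2 hp1 hp2 hne hmax hV
  obtain ⟨x, hx, hn⟩ := hV
  -- the value is bounded
  have hval : t.val x ≤ t.b + Q1 * n l := by
    unfold Pc.val
    refine Nat.add_le_add_left ?_ _
    rw [hQ1, Finset.sum_mul]
    refine Finset.sum_le_sum fun w _ => ?_
    rcases Nat.eq_zero_or_pos (t.q w) with h0 | h0
    · simp [h0]
    · have hp : 0 < t.p w := by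
        rcases Nat.eq_zero_or_pos (t.p w) with h1 | h1
        · exact absurd (hfree w h1) (by omega)
        · exact h1
      have h2 := kbg_le_pt t x w
      rw [← hn] at h2
      have h3 := hmax w h0
      have h4 : x w ≤ x w * t.p w := Nat.le_mul_of_pos_right _ hp
      rw [mul_comm]
      exact Nat.mul_le_mul_left _ (by omega)
  -- the maximal generator
  obtain ⟨w3, hw3, hmax3⟩ := Finset.exists_max_image
    (Finset.univ.filter (fun w => t.j w = l ∧ 0 < t.p w)) x ⟨w1, by simp [hj1, hp1]⟩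
  simp only [Finset.mem_filter, Finset.mem_univ, true_and] at hw3 hmax3
  obtain ⟨hj3, hp3⟩ := hw3
  have hnl : n l ≤ C0 + x w3 * P := by
    rw [hn]
    show t.c l + (∑ s, if t.j s = l then x s * t.p s else 0) ≤ _
    refine Nat.add_le_add ?_ ?_
    · exact Finset.single_le_sum (f := t.c) (fun i _ => Nat.zero_le _) (Finset.mem_univ l)
    · rw [hP, Finset.mul_sum]
      refine Finset.sum_le_sum fun s _ => ?_
      split_ifs with hs
      · rcases Nat.eq_zero_or_pos (t.p s) with h1 | h1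
        · simp [h1]
        · exact Nat.mul_le_mul_right _ (hmax3 s ⟨hs, h1⟩)
      · exact Nat.zero_le _
  -- a generator of another slope
  obtain ⟨w', hj', hp', hne'⟩ : ∃ w', t.j w' = l ∧ 0 < t.p w' ∧
      t.q w3 * t.p w' ≠ t.q w' * t.p w3 := by
    by_contra hcon
    push Not at hcon
    have h1 := hcon w1 hj1 hp1
    have h2 := hcon w2 hj2 hp2
    apply hne
    have h3 : (t.q w1 * t.p w2) * t.p w3 = (t.q w2 * t.p w1) * t.p w3 := by
      calc (t.q w1 * t.p w2) * t.p w3 = (t.q w1 * t.p w3) * t.p w2 := by ring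
        _ = (t.q w3 * t.p w1) * t.p w2 := by rw [h1]
        _ = (t.q w3 * t.p w2) * t.p w1 := by ring
        _ = (t.q w2 * t.p w3) * t.p w1 := by rw [h2]
        _ = (t.q w2 * t.p w1) * t.p w3 := by ring
    exact Nat.eq_of_mul_eq_mul_right hp3 h3
  -- the number of steps
  set Y : ℕ := x w3 / t.p w' with hY
  have hYle : Y * t.p w' ≤ x w3 := Nat.div_mul_le_self _ _
  have hYlt : x w3 < t.p w' * (Y + 1) := Nat.lt_mul_div_succ _ hp'
  have hpP : t.p w' ≤ P :=
    Finset.single_le_sum (f := t.p) (fun i _ => Nat.zero_le _) (Finset.mem_univ w')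
  have hnl2 : n l ≤ C0 + P * P * (Y + 1) := by
    have h1 : x w3 ≤ P * (Y + 1) := le_trans hYlt.le (Nat.mul_le_mul_right _ hpP)
    have h2 : x w3 * P ≤ P * P * (Y + 1) := by
      calc x w3 * P ≤ (P * (Y + 1)) * P := Nat.mul_le_mul_right _ h1
        _ = P * P * (Y + 1) := by ring
    omega
  have hYY : Y0 + 2 < Y + 1 := by
    have h1 : P * P * (Y0 + 2) < P * P * (Y + 1) := by omega
    exact lt_of_mul_lt_mul_left h1 (Nat.zero_le _)
  have hval2 : t.val x ≤ (t.b + Q1 * (C0 + 2 * (P * P))) * Y := by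
    have hY1 : 1 ≤ Y := by omega
    have h1 : t.b ≤ t.b * Y := Nat.le_mul_of_pos_right _ hY1
    have h2 : C0 ≤ C0 * Y := Nat.le_mul_of_pos_right _ hY1
    have h3 : P * P * (Y + 1) ≤ 2 * (P * P) * Y := by
      have : P * P * (Y + 1) ≤ P * P * (2 * Y) := Nat.mul_le_mul_left _ (by omega)
      calc _ ≤ P * P * (2 * Y) := this
        _ = _ := by ring
    have h4 : n l ≤ (C0 + 2 * (P * P)) * Y := by
      rw [add_mul]; omega
    have h5 : Q1 * n l ≤ Q1 * ((C0 + 2 * (P * P)) * Y) := Nat.mul_le_mul_left _ h4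
    calc t.val x ≤ t.b + Q1 * n l := hval
      _ ≤ t.b * Y + Q1 * ((C0 + 2 * (P * P)) * Y) := Nat.add_le_add h1 h5
      _ = _ := by ring
  -- trades
  have htrade : ∀ y, y ≤ Y → ∃ z : Fin t.r → ℕ, n = t.pt z ∧
      t.val z + y * (t.q w3 * t.p w') = t.val x + y * (t.q w' * t.p w3) := by
    intro y hy
    have hyx : y * t.p w' ≤ x w3 := le_trans (Nat.mul_le_mul_right _ hy) hYle
    obtain ⟨x0, hx0, -⟩ := single_decomp x w3 (y * t.p w') hyx
    refine ⟨x0 + Pi.single w' (y * t.p w3), ?_, ?_⟩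
    · rw [hn, hx0, kbg_pt_add_single, kbg_pt_add_single, hj3, hj']
      congr 2
      ring
    · rw [hx0, kbg_val_add_single, kbg_val_add_single]
      ring
  rcases Nat.lt_or_gt_of_ne hne' with hlt | hgt
  · obtain ⟨g, hg⟩ := Nat.exists_eq_add_of_le hlt.le
    have hg0 : 0 < g := by omega
    have hgQ : g ∣ Q := hdiv w3 w' g hg0 hg.symm
    obtain ⟨⟨y, hy, hyS⟩, -⟩ := hY0 Y (t.val x) g (by omega) hg0 hgQ hx hval2
    obtain ⟨z, hz1, hz2⟩ := htrade y hy
    refine ⟨z, ?_, hz1⟩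
    have h1 : t.val z = t.val x + y * g := by
      rw [hg, mul_add] at hz2
      omega
    rw [h1]; exact hyS
  · obtain ⟨g, hg⟩ := Nat.exists_eq_add_of_le hgt.le
    have hg0 : 0 < g := by omega
    have hgQ : g ∣ Q := hdiv w' w3 g hg0 hg.symm
    have hYg : Y * g ≤ t.val x := by
      obtain ⟨z, -, hz2⟩ := htrade Y le_rfl
      rw [hg, mul_add] at hz2
      omega
    obtain ⟨y, hy, s, hs, hsy⟩ := (hY0 Y (t.val x) g (by omega) hg0 hgQ hx hval2).2 hYg
    obtain ⟨z, hz1, hz2⟩ := htrade y hy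
    refine ⟨z, ?_, hz1⟩
    have h1 : t.val z = s := by
      rw [hg, mul_add] at hz2
      omega
    rw [h1]; exact hs

end Pool.Agent.U831.MC
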