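import Pool.Agent.U831.MC.Stm

set_option autoImplicit false

/-!
Package NRG of project MC (MP_3a8f7c_lc): the tally language is not regular. (helper329)
-/

namespace Pool.Agent.U831.MC

open Pool.Agent.Helper288.Cone

theorem rep_mem_tal (S : Set ℕ) (m : ℕ) :
    List.replicate m (0 : Fin 1) ∈ tal S ↔ m ∈ S := by
  constructor
  · rintro ⟨s, hs, h⟩
    have := congrArg List.length h
    simp only [List.length_replicate] at this
    rwa [this]
  · intro h
    exact ⟨m, h, rfl⟩

theorem t_NRG : PNrg := by
  intro S u hS hreg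
  have hfin := hreg.finite_range_leftQuotient
  -- two equal left quotients
  have hninj : ¬ Function.Injective
      (fun i : ℕ => (tal S).leftQuotient (List.replicate i (0 : Fin 1))) := by
    intro hinj
    have h1 : (Set.range (fun i : ℕ => (tal S).leftQuotient
        (List.replicate i (0 : Fin 1)))).Infinite := Set.infinite_range_of_injective hinj
    apply h1
    apply hfin.subset
    rintro _ ⟨i, rfl⟩
    exact ⟨_, rfl⟩
  have hij : ∃ i j : ℕ, i < j ∧ (tal S).leftQuotient (List.replicate i (0 : Fin 1)) =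
      (tal S).leftQuotient (List.replicate j (0 : Fin 1)) := by
    unfold Function.Injective at hninj
    push Not at hninj
    obtain ⟨i, j, h, hne⟩ := hninj
    rcases lt_or_gt_of_ne hne with h1 | h1
    · exact ⟨i, j, h1, h⟩
    · exact ⟨j, i, h1, h.symm⟩
  obtain ⟨i, j, hlt, heq⟩ := hij
  have hper : ∀ m : ℕ, i + m ∈ S ↔ j + m ∈ S := by
    intro m
    have h1 : List.replicate m (0 : Fin 1) ∈ (tal S).leftQuotient (List.replicate i 0) ↔
        List.replicate m (0 : Fin 1) ∈ (tal S).leftQuotient (List.replicate j 0) := by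
      rw [heq]
    rw [Language.mem_leftQuotient, Language.mem_leftQuotient, ← List.replicate_add,
      ← List.replicate_add, rep_mem_tal, rep_mem_tal] at h1
    exact h1
  obtain ⟨y₀, hy₀⟩ := hS.hit 2
  obtain ⟨s₀, hs₀⟩ := hS.res (j - i + 1) (by omega)
  obtain ⟨s, hs, hle, hc⟩ := hy₀ (y₀ + 2 * (s₀ + i)) (by omega)
  have hs1 : s₀ ≤ s := by omega
  have hs2 : i ≤ s := by omega
  have h3 : s + (j - i) ∈ S := by
    have := (hper (s - i)).mp (by rwa [Nat.add_sub_cancel' hs2])
    have h4 : j + (s - i) = s + (j - i) := by omega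
    rwa [h4] at this
  have h5 := hs₀ s hs hs1
  have h6 := hs₀ _ h3 (by omega)
  have h7 : s ≡ s + (j - i) [MOD (j - i + 1)] := h5.trans h6.symm
  have h8 : (j - i + 1) ∣ (s + (j - i)) - s := (Nat.modEq_iff_dvd' (by omega)).mp h7
  rw [Nat.add_sub_cancel_left] at h8
  have := Nat.le_of_dvd (by omega) h8
  omega

end Pool.Agent.U831.MC
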