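import Pool.Agent.U831.MC.Stm

set_option autoImplicit false

/-!
Package PIG of project MC (MP_3a8f7c_lc): a piece with a generator of positive slope which contains a
point with the right residue forces a non-rigid piece above the point (helper342).
-/

namespace Pool.Agent.U831.MC

open Pool.Agent.Helper288.Cone

/-- iteration of the period -/
lemma pig_iter {A : Set ℕ} {T M : ℕ} (h : ∀ a, T ≤ a → (a ∈ A ↔ a + M ∈ A)) {a : ℕ} (ha : T ≤ a)
    (hA : a ∈ A) (i : ℕ) : a + i * M ∈ A := by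
  induction i with
  | zero => simpa using hA
  | succ i ih =>
    have h1 := (h (a + i * M) (by omega)).1 ih
    have h2 : a + (i + 1) * M = a + i * M + M := by ring
    rw [h2]
    exact h1

/-- a special set is unbounded -/
lemma pig_unbdd {S : Set ℕ} {u : ℕ → ℕ} (hS : Sp S u) (B : ℕ) : ∃ s ∈ S, B ≤ s := by
  obtain ⟨y0, hy⟩ := hS.hit 2
  obtain ⟨s, hs, h1, h2⟩ := hy (y0 + 2 * B) (by omega)
  exact ⟨s, hs, by omega⟩

/-- the value after adding a multiple of a generator -/
lemma pig_val {k : ℕ} (t : Pc k) (x : Fin t.r → ℕ) (ω : Fin t.r) (m : ℕ) :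
    t.val (x + Pi.single ω m) = t.val x + m * t.q ω := by
  unfold Pc.val
  have h1 : ∀ r : Fin t.r, (x + (Pi.single ω m : Fin t.r → ℕ)) r * t.q r =
      x r * t.q r + (if r = ω then m * t.q ω else 0) := by
    intro r
    by_cases hr : r = ω
    · subst hr
      simp [add_mul]
    · simp [hr]
  rw [Finset.sum_congr rfl (fun r _ => h1 r), Finset.sum_add_distrib]
  simp [add_assoc]

/-- `update n l (n l + z) = n + single l z` -/
lemma pig_update {k : ℕ} (n : Fin k → ℕ) (l : Fin k) (z : ℕ) :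
    Function.update n l (n l + z) = n + Pi.single l z := by
  funext b
  by_cases hb : b = l
  · subst hb; simp
  · simp [hb]

/-- one bound for finitely many rigid pieces -/
lemma pig_bound {k : ℕ} (hR : PRig) {S : Set ℕ} {u : ℕ → ℕ} (hS : Sp S u) (n : Fin k → ℕ) (l : Fin k)
    (L : List (Pc k)) : ∃ K₀ : ℕ, ∀ t ∈ L, Rig t l → ∀ Δ : ℕ, K₀ < Δ → ∃ a₀ : ℕ, ∀ a, a₀ ≤ a →
      ¬ (t.Mem S (Function.update n l a) ∧ t.Mem S (Function.update n l (a + Δ))) := by
  induction L with
  | nil => exact ⟨0, fun t ht => absurd ht (by simp)⟩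
  | cons t L ih =>
    obtain ⟨K, hK⟩ := ih
    by_cases ht : Rig t l
    · obtain ⟨K', hK'⟩ := hR S u hS k t l n ht
      refine ⟨max K K', fun t' ht' h1 Δ hΔ => ?_⟩
      rcases List.mem_cons.1 ht' with rfl | h2
      · exact hK' Δ (lt_of_le_of_lt (le_max_right _ _) hΔ)
      · exact hK t' h2 h1 Δ (lt_of_le_of_lt (le_max_left _ _) hΔ)
    · refine ⟨K, fun t' ht' h1 Δ hΔ => ?_⟩
      rcases List.mem_cons.1 ht' with rfl | h2
      · exact absurd h1 ht
      · exact hK t' h2 h1 Δ hΔ

/-- a common threshold for a finite family of eventual properties, along a list -/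
lemma pig_ev_list {β : Type} (L : List β) (P : β → ℕ → Prop)
    (h : ∀ b ∈ L, ∃ a₀ : ℕ, ∀ a, a₀ ≤ a → P b a) : ∃ a₀ : ℕ, ∀ b ∈ L, ∀ a, a₀ ≤ a → P b a := by
  induction L with
  | nil => exact ⟨0, fun b hb => absurd hb (by simp)⟩
  | cons b L ih =>
    obtain ⟨a₀, h0⟩ := ih (fun b' hb' => h b' (List.mem_cons_of_mem _ hb'))
    obtain ⟨a₁, h1⟩ := h b (List.mem_cons_self ..)
    refine ⟨max a₀ a₁, fun b' hb' a ha => ?_⟩
    rcases List.mem_cons.1 hb' with rfl | h2
    · exact h1 a ((le_max_right _ _).trans ha)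
    · exact h0 b' h2 a ((le_max_left _ _).trans ha)

/-- a common threshold for a finite family of eventual properties -/
lemma pig_ev_fin (m : ℕ) (P : ℕ → ℕ → Prop)
    (h : ∀ b, b ≤ m → ∃ a₀ : ℕ, ∀ a, a₀ ≤ a → P b a) : ∃ a₀ : ℕ, ∀ b, b ≤ m → ∀ a, a₀ ≤ a → P b a := by
  obtain ⟨a₀, h0⟩ := pig_ev_list (List.range (m + 1)) P
    (fun b hb => h b (by rw [List.mem_range] at hb; omega))
  exact ⟨a₀, fun b hb a ha => h0 b (by rw [List.mem_range]; omega) a ha⟩

theorem t_PIG : PPig := by
  intro hR S u hS k L t ω n H D ht hp hq hD hH hdvd hV hUP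
  obtain ⟨x, hx, hn⟩ := hV
  obtain ⟨T, M, hM, hUP⟩ := hUP
  obtain ⟨l, hl⟩ : ∃ l, l = t.j ω := ⟨_, rfl⟩
  rw [← hl] at hUP ⊢
  obtain ⟨K₀, hK₀⟩ := pig_bound hR hS n l L
  obtain ⟨D', hD'⟩ : ∃ D', D' = (K₀ + 1) * M * D := ⟨_, rfl⟩
  have hD'K : K₀ < D' := by
    rw [hD', mul_assoc]
    have : 0 < M * D := Nat.mul_pos hM hD
    nlinarith
  -- the common threshold
  obtain ⟨a₀, ha₀⟩ := pig_ev_list L
    (fun t' a => Rig t' l → ∀ e, 1 ≤ e → e ≤ L.length →
      ¬ (t'.Mem S (Function.update n l a) ∧ t'.Mem S (Function.update n l (a + e * D'))))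
    (fun t' ht' => by
      by_cases hr : Rig t' l
      · obtain ⟨a₀, h0⟩ := pig_ev_fin L.length
          (fun e a => 1 ≤ e → ¬ (t'.Mem S (Function.update n l a) ∧
            t'.Mem S (Function.update n l (a + e * D'))))
          (fun e _ => by
            by_cases he1 : 1 ≤ e
            · obtain ⟨a₀, h0⟩ := hK₀ t' ht' hr (e * D') (by nlinarith)
              exact ⟨a₀, fun a ha _ => h0 a ha⟩
            · exact ⟨0, fun a _ h => absurd h he1⟩)
        exact ⟨a₀, fun a ha _ e he1 he2 => h0 e he2 a ha he1⟩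
      · exact ⟨0, fun a _ h => absurd h hr⟩)
  -- a large element of `S`
  obtain ⟨s₀, hs₀⟩ := hS.res H hH
  obtain ⟨s, hs, hsB⟩ := pig_unbdd hS (s₀ + t.val x + t.q ω * (T + a₀))
  have hsu : s ≡ t.val x [MOD H] := (hs₀ s hs (by omega)).trans hx.symm
  have hvs : t.val x ≤ s := by omega
  obtain ⟨e, he⟩ : ∃ e, s - t.val x = t.q ω * D * e := by
    have h1 : H ∣ s - t.val x := (Nat.modEq_iff_dvd' hvs).1 hsu.symm
    exact hdvd.trans h1
  have hDe : T + a₀ ≤ D * e := by
    have h1 : t.q ω * (T + a₀) ≤ t.q ω * (D * e) := by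
      rw [← mul_assoc, ← he]; omega
    exact Nat.le_of_mul_le_mul_left h1 hq
  obtain ⟨as, has⟩ : ∃ as, as = n l + D * e * t.p ω := ⟨_, rfl⟩
  have hasT : T + a₀ ≤ as := by
    rw [has]
    have : D * e ≤ D * e * t.p ω := Nat.le_mul_of_pos_right _ hp
    omega
  have hmem : as ∈ {a | ∃ t' ∈ L, t'.Mem S (Function.update n l a)} := by
    refine ⟨t, ht, x + Pi.single ω (D * e), ?_, ?_⟩
    · rw [pig_val]
      have : t.val x + D * e * t.q ω = s := by
        have h1 : D * e * t.q ω = t.q ω * D * e := by ring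
        rw [h1, ← he]; omega
      rw [this]; exact hs
    · rw [has, pig_update]
      unfold Pc.pt
      rw [lin_add_single, ← hl]
      congr 1
  have hall : ∀ i : ℕ, ∃ t' ∈ L, t'.Mem S (Function.update n l (as + i * D')) := by
    intro i
    have h1 := pig_iter hUP (a := as) (by omega) hmem (i * ((K₀ + 1) * D))
    have h2 : as + i * ((K₀ + 1) * D) * M = as + i * D' := by rw [hD']; ring
    rw [h2] at h1
    exact h1
  have hidx : ∀ i : ℕ, ∃ f : Fin L.length, (L.get f).Mem S (Function.update n l (as + i * D')) := by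
    intro i
    obtain ⟨t', ht', h1⟩ := hall i
    obtain ⟨f, rfl⟩ := List.get_of_mem ht'
    exact ⟨f, h1⟩
  choose f hf using hidx
  by_cases hex : ∃ i, ¬ Rig (L.get (f i)) l
  · obtain ⟨i, hi⟩ := hex
    refine ⟨e * t.p ω + i * ((K₀ + 1) * M), L.get (f i), List.get_mem _ _, ?_, hi⟩
    have h1 := hf i
    have h2 : as + i * D' = n l + (e * t.p ω + i * ((K₀ + 1) * M)) * D := by
      rw [has, hD']; ring
    rw [h2, pig_update] at h1
    exact h1
  · push Not at hex
    exfalso
    obtain ⟨i, i', hne, hii⟩ := Fintype.exists_ne_map_eq_of_card_lt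
      (fun i : Fin (L.length + 1) => f i) (by simp)
    have key : ∀ i i' : ℕ, i < i' → i' ≤ L.length → f i = f i' → False := by
      intro i i' hlt hle heq
      have h1 := hf i
      have h2 := hf i'
      rw [← heq] at h2
      have h3 : as + i' * D' = as + i * D' + (i' - i) * D' := by
        have : i' * D' = i * D' + (i' - i) * D' := by
          rw [← add_mul]; congr 1; omega
        rw [this]; ring
      rw [h3] at h2
      exact ha₀ (L.get (f i)) (List.get_mem _ _) (as + i * D') (by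
        have : 0 ≤ i * D' := Nat.zero_le _
        omega) (hex i) (i' - i) (by omega) (by omega) ⟨h1, h2⟩
    rcases lt_trichotomy (i : ℕ) (i' : ℕ) with h | h | h
    · exact key i i' h (by have := i'.2; omega) hii
    · exact hne (Fin.ext h)
    · exact key i' i h (by have := i.2; omega) hii.symm

end Pool.Agent.U831.MC
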