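import Pool.Agent.U831.MC.Stm

/-!
# Project MC, package RCV: recovering the tally language (helper535)
-/

set_option autoImplicit false

namespace Pool.Agent.U831.MC

open Pool.Agent.Helper288.Cone

namespace RCV

variable (S : Set ℕ) (s : ℕ)

open Classical in
/-- the transitions -/
noncomputable def st (q : Fin 4) (c : Fin 3 ⊕ Fin s) : Fin 4 :=
  if q = 0 then (match c with
    | Sum.inl l => if l = 0 then 1 else 3
    | Sum.inr j => if (j : ℕ) ∈ S then 2 else 3)
  else if q = 1 then (match c with
    | Sum.inl l => if l = 1 then 1 else if l = 2 then 2 else 3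
    | Sum.inr _ => 3)
  else 3

/-- the automaton -/
noncomputable def au : DFA (Fin 3 ⊕ Fin s) (Fin 4) where
  step := st S s
  start := 0
  accept := {2}

lemma st_three (c : Fin 3 ⊕ Fin s) : st S s 3 c = 3 := by
  unfold st
  rw [if_neg (by decide), if_neg (by decide)]

lemma st_two (c : Fin 3 ⊕ Fin s) : st S s 2 c = 3 := by
  unfold st
  rw [if_neg (by decide), if_neg (by decide)]

lemma fold_three (z : List (Fin 3 ⊕ Fin s)) : z.foldl (st S s) 3 = 3 := by
  induction z with
  | nil => rfl
  | cons c z ih => rw [List.foldl_cons, st_three, ih]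

lemma fold_two (z : List (Fin 3 ⊕ Fin s)) : z.foldl (st S s) 2 = 2 ↔ z = [] := by
  cases z with
  | nil => simp
  | cons c z =>
    rw [List.foldl_cons, st_two, fold_three]
    simp

lemma fold_one (z : List (Fin 3 ⊕ Fin s)) : z.foldl (st S s) 1 = 2 ↔
    ∃ i : ℕ, z = List.replicate i (Sum.inl 1) ++ [Sum.inl 2] := by
  induction z with
  | nil =>
    rw [List.foldl_nil]
    constructor
    · intro h; exact absurd h (by decide)
    · rintro ⟨i, hi⟩
      have := congrArg List.length hi
      simp at this
  | cons c z ih =>
    rw [List.foldl_cons]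
    rcases c with l | j
    · fin_cases l
      · have e : st S s 1 (Sum.inl ⟨0, by decide⟩) = 3 := by simp [st]
        simp only [Fin.mk_zero] at e ⊢
        rw [e, fold_three]
        constructor
        · intro h; exact absurd h (by decide)
        · rintro ⟨i, hi⟩
          cases i with
          | zero => simp at hi
          | succ i => simp [List.replicate_succ] at hi
      · have e : st S s 1 (Sum.inl ⟨1, by decide⟩) = 1 := by simp [st]
        simp only [Fin.mk_one] at e ⊢
        rw [e, ih]
        constructor
        · rintro ⟨i, rfl⟩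
          exact ⟨i + 1, by simp [List.replicate_succ]⟩
        · rintro ⟨i, hi⟩
          cases i with
          | zero => simp at hi
          | succ i =>
            rw [List.replicate_succ, List.cons_append, List.cons.injEq] at hi
            exact ⟨i, hi.2⟩
      · have e : st S s 1 (Sum.inl ⟨2, by decide⟩) = 2 := by simp [st]
        have e2 : (⟨2, by decide⟩ : Fin 3) = 2 := rfl
        simp only [e2] at e ⊢
        rw [e, fold_two]
        constructor
        · rintro rfl
          exact ⟨0, by simp⟩
        · rintro ⟨i, hi⟩
          cases i with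
          | zero => simpa using hi
          | succ i =>
            rw [List.replicate_succ, List.cons_append, List.cons.injEq] at hi
            exact absurd hi.1 (by simp)
    · have e : st S s 1 (Sum.inr j) = 3 := by simp [st]
      rw [e, fold_three]
      constructor
      · intro h; exact absurd h (by decide)
      · rintro ⟨i, hi⟩
        cases i with
        | zero => simp at hi
        | succ i => simp [List.replicate_succ] at hi

lemma fold_zero (z : List (Fin 3 ⊕ Fin s)) : z.foldl (st S s) 0 = 2 ↔
    (∃ i : ℕ, z = Sum.inl 0 :: (List.replicate i (Sum.inl 1) ++ [Sum.inl 2])) ∨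
      ∃ j : Fin s, (j : ℕ) ∈ S ∧ z = [Sum.inr j] := by
  cases z with
  | nil => simp
  | cons c z =>
    rw [List.foldl_cons]
    rcases c with l | j
    · by_cases hl : l = 0
      · subst hl
        have e : st S s 0 (Sum.inl 0) = 1 := by simp [st]
        rw [e, fold_one]
        simp
      · have e : st S s 0 (Sum.inl l) = 3 := by simp [st, hl]
        rw [e, fold_three]
        simp [hl]
    · by_cases hj : (j : ℕ) ∈ S
      · have e : st S s 0 (Sum.inr j) = 2 := by simp [st, hj]
        rw [e, fold_two]
        constructor
        · rintro rfl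
          exact Or.inr ⟨j, hj, rfl⟩
        · rintro (⟨i, hi⟩ | ⟨j', -, hj'⟩)
          · simp at hi
          · exact (List.cons.inj hj').2
      · have e : st S s 0 (Sum.inr j) = 3 := by simp [st, hj]
        rw [e, fold_three]
        constructor
        · intro h; exact absurd h (by decide)
        · rintro (⟨i, hi⟩ | ⟨j', hS, hj'⟩)
          · simp at hi
          · have h1 := (List.cons.inj hj').1
            rw [Sum.inr.injEq] at h1
            exact absurd (h1 ▸ hS) hj

lemma mem_au (z : List (Fin 3 ⊕ Fin s)) : z ∈ (au S s).accepts ↔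
    (∃ i : ℕ, z = Sum.inl 0 :: (List.replicate i (Sum.inl 1) ++ [Sum.inl 2])) ∨
      ∃ j : Fin s, (j : ℕ) ∈ S ∧ z = [Sum.inr j] := by
  rw [← fold_zero, DFA.mem_accepts]
  exact Iff.rfl

lemma flatMap_replicate' {α β : Type} (i : ℕ) (c : α) (f : α → List β) :
    (List.replicate i c).flatMap f = (List.replicate i (f c)).flatten := by
  induction i with
  | zero => simp
  | succ i ih => rw [List.replicate_succ, List.flatMap_cons, ih, List.replicate_succ, List.flatten_cons]

lemma flatten_rep {α : Type} (m d : ℕ) (l : List α) :
    (List.replicate m (List.replicate d l).flatten).flatten = (List.replicate (d * m) l).flatten := by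
  induction m with
  | zero => simp
  | succ m ih =>
    rw [List.replicate_succ, List.flatten_cons, ih, Nat.mul_succ, Nat.add_comm, List.replicate_add,
      List.flatten_append]

lemma flatten_rep1 {α : Type} (m d : ℕ) (c : α) :
    (List.replicate m (List.replicate d c)).flatten = List.replicate (d * m) c := by
  induction m with
  | zero => simp
  | succ m ih =>
    rw [List.replicate_succ, List.flatten_cons, ih, Nat.mul_succ, Nat.add_comm, List.replicate_add]

end RCV

open RCV in
theorem t_RCV : PRcv := by
  intro X L S x w y a s h g h1 h2 h3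
  obtain ⟨v0, hv0⟩ := h3
  let H : Fin 3 ⊕ Fin s → List X := fun c => match c with
    | Sum.inl l => if l = 0 then x ++ (List.replicate a w).flatten else
        if l = 1 then (List.replicate h w).flatten else y
    | Sum.inr _ => v0
  let G : Fin 3 ⊕ Fin s → List (Fin 1) := fun c => match c with
    | Sum.inl l => if l = 0 then List.replicate s 0 else if l = 1 then List.replicate g 0 else []
    | Sum.inr j => List.replicate (j : ℕ) 0
  have hH : ∀ i : ℕ, (Sum.inl 0 :: (List.replicate i (Sum.inl 1) ++ [Sum.inl 2])).flatMap H =
      x ++ (List.replicate (a + h * i) w).flatten ++ y := by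
    intro i
    have e0 : H (Sum.inl 0) = x ++ (List.replicate a w).flatten := by simp [H]
    have e1 : H (Sum.inl 1) = (List.replicate h w).flatten := by simp [H]
    have e2 : H (Sum.inl 2) = y := by simp [H]
    rw [List.flatMap_cons, List.flatMap_append, flatMap_replicate', e0, e1, flatten_rep,
      List.replicate_add, List.flatten_append]
    simp [e2, List.append_assoc]
  have hG : ∀ i : ℕ, (Sum.inl 0 :: (List.replicate i (Sum.inl 1) ++ [Sum.inl 2])).flatMap G =
      List.replicate (s + g * i) 0 := by
    intro i
    have e0 : G (Sum.inl 0) = List.replicate s 0 := by simp [G]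
    have e1 : G (Sum.inl 1) = List.replicate g 0 := by simp [G]
    have e2 : G (Sum.inl 2) = [] := by simp [G]
    rw [List.flatMap_cons, List.flatMap_append, flatMap_replicate', e0, e1, flatten_rep1,
      List.replicate_add]
    simp [e2]
  refine ⟨Fin 3 ⊕ Fin s, inferInstance, H, G, (au S s).accepts, ⟨Fin 4, inferInstance, au S s, rfl⟩, ?_⟩
  ext v
  constructor
  · rintro ⟨s', hs', rfl⟩
    by_cases hlt : s' < s
    · refine ⟨[Sum.inr ⟨s', hlt⟩], (mem_au S s _).2 (Or.inr ⟨⟨s', hlt⟩, hs', rfl⟩), ?_, ?_⟩
      · simpa [H] using hv0
      · simp [G]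
    · obtain ⟨i, hi⟩ := h2 s' hs' (by omega)
      refine ⟨_, (mem_au S s _).2 (Or.inl ⟨i, rfl⟩), ?_, ?_⟩
      · rw [hH i, h1, ← hi]; exact hs'
      · rw [hG i, hi]
  · rintro ⟨z, hz, hzL, rfl⟩
    rcases (mem_au S s z).1 hz with ⟨i, rfl⟩ | ⟨j, hj, rfl⟩
    · rw [hH i, h1] at hzL
      exact ⟨_, hzL, hG i⟩
    · exact ⟨j, hj, by simp [G]⟩

end Pool.Agent.U831.MC
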