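import Pool.Agent.Helper288.ConeMain

set_option autoImplicit false

/-!
Statements of project MC (MP_3a8f7c_lc, Q2).
-/

namespace Pool.Agent.U831.MC

open Pool.Agent.Helper288.Cone

/-- the tally language of a set of numbers -/
def tal (S : Set ℕ) : Language (Fin 1) := {v | ∃ s ∈ S, v = List.replicate s (0 : Fin 1)}

/-- the special sets: short gaps (relative to the size), constant residues, irrational profinite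
limit -/
structure Sp (S : Set ℕ) (u : ℕ → ℕ) : Prop where
  hit : ∀ c : ℕ, ∃ y₀ : ℕ, ∀ y, y₀ ≤ y → ∃ s ∈ S, s ≤ y ∧ c * (y - s) ≤ y
  res : ∀ H : ℕ, 0 < H → ∃ s₀ : ℕ, ∀ s ∈ S, s₀ ≤ s → s ≡ u H [MOD H]
  irr : ∀ A B : ℤ, A ≠ 0 → ∃ H : ℕ, 0 < H ∧ ¬ (A * (u H : ℤ) ≡ B [ZMOD (H : ℤ)])

/-- eventually periodic sets -/
def UP (A : Set ℕ) : Prop := ∃ T M : ℕ, 0 < M ∧ ∀ a, T ≤ a → (a ∈ A ↔ a + M ∈ A)

/-- a piece: `r` generators, the generator `ω` adds `q ω` to the value and `p ω` to the coordinate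
`j ω` of the point; the starting value is `b` and the starting point is `c` -/
structure Pc (k : ℕ) where
  r : ℕ
  b : ℕ
  c : Fin k → ℕ
  q : Fin r → ℕ
  p : Fin r → ℕ
  j : Fin r → Fin k

/-- value -/
def Pc.val {k : ℕ} (t : Pc k) (x : Fin t.r → ℕ) : ℕ := t.b + ∑ ω, x ω * t.q ω

/-- point -/
def Pc.pt {k : ℕ} (t : Pc k) (x : Fin t.r → ℕ) : Fin k → ℕ := lin t.c t.j t.p x

/-- the set given by a piece -/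
def Pc.Mem {k : ℕ} (S : Set ℕ) (t : Pc k) (n : Fin k → ℕ) : Prop :=
  ∃ x, t.val x ∈ S ∧ n = t.pt x

/-- representable with the right residue of the value -/
def Pc.V {k : ℕ} (u : ℕ → ℕ) (t : Pc k) (n : Fin k → ℕ) (H : ℕ) : Prop :=
  ∃ x, t.val x ≡ u H [MOD H] ∧ n = t.pt x

/-- the class: finite unions of pieces -/
def Cls {k : ℕ} (S : Set ℕ) (K : Set (Fin k → ℕ)) : Prop :=
  ∃ L : List (Pc k), ∀ n, n ∈ K ↔ ∃ t ∈ L, t.Mem S n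

/-- rigid pieces at a coordinate: no free generator, and all slopes at `l` agree and are positive -/
def Rig {k : ℕ} (t : Pc k) (l : Fin k) : Prop :=
  (∀ ω, t.p ω = 0 → t.q ω = 0) ∧
    ∃ ω₀, t.j ω₀ = l ∧ 0 < t.q ω₀ ∧ 0 < t.p ω₀ ∧
      ∀ ω, t.j ω = l → t.q ω * t.p ω₀ = t.q ω₀ * t.p ω

/-! ### The packages -/

/-- SET -/
def PSet : Prop := ∃ (S : Set ℕ) (u : ℕ → ℕ), Sp S u

/-- NRG -/
def PNrg : Prop := ∀ (S : Set ℕ) (u : ℕ → ℕ), Sp S u → ¬ (tal S).IsRegular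

/-- CLS -/
def PCls : Prop := ∀ (S : Set ℕ) (k : ℕ) (X : Type) (L : Language X) (w : Fin k → List X),
  0 < k → InCone (tal S) L → Cls S {n : Fin k → ℕ | wpow w n ∈ L}

/-- FIX -/
def PFix : Prop := ∀ (S : Set ℕ) (k : ℕ) (K : Set (Fin k → ℕ)) (l : Fin k) (a : ℕ),
  Cls S K → Cls S {n : Fin k → ℕ | Function.update n l a ∈ K}

/-- SLC -/
def PSlc : Prop := ∀ (S : Set ℕ) (k : ℕ) (K : Set (Fin k → ℕ)) (l : Fin k) (n : Fin k → ℕ),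
  Cls S K → Cls S {m : Fin 1 → ℕ | Function.update n l (m 0) ∈ K}

/-- STEP -/
def PStep : Prop := ∀ (S : Set ℕ) (u : ℕ → ℕ), Sp S u → ∀ (k : ℕ) (K : Set (Fin k → ℕ)),
  Cls S K → (∀ (n : Fin k → ℕ) (l : Fin k), UP {a | Function.update n l a ∈ K}) →
  ∃ N M : ℕ, 0 < M ∧ ∀ n : Fin k → ℕ, (∀ i, N ≤ n i) → ∀ i, (n ∈ K ↔ n + Pi.single i M ∈ K)

/-- REC -/
def PRec : Prop := PFix → PStep → ∀ (S : Set ℕ) (u : ℕ → ℕ), Sp S u →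
  ∀ (k : ℕ) (K : Set (Fin k → ℕ)), Cls S K →
  (∀ (n : Fin k → ℕ) (l : Fin k), UP {a | Function.update n l a ∈ K}) → Rec K

/-- HIT -/
def PHit : Prop := ∀ (S : Set ℕ) (u : ℕ → ℕ), Sp S u → ∀ C Q : ℕ, 0 < Q → ∃ Y₀ : ℕ,
  ∀ Y v g : ℕ, Y₀ ≤ Y → 0 < g → g ∣ Q → v ≡ u Q [MOD Q] → v ≤ C * Y →
    (∃ y ≤ Y, v + y * g ∈ S) ∧ (Y * g ≤ v → ∃ y ≤ Y, ∃ s ∈ S, s + y * g = v)

/-- KBG -/
def PKbg : Prop := PHit → ∀ (S : Set ℕ) (u : ℕ → ℕ), Sp S u → ∀ (k : ℕ) (t : Pc k) (Q : ℕ),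
  0 < Q →
  (∀ ω ω' : Fin t.r, ∀ g : ℕ, 0 < g → t.q ω * t.p ω' + g = t.q ω' * t.p ω → g ∣ Q) →
  (∀ ω, t.p ω = 0 → t.q ω = 0) →
  ∃ N : ℕ, ∀ (n : Fin k → ℕ) (l : Fin k) (ω₁ ω₂ : Fin t.r), N ≤ n l → t.j ω₁ = l → t.j ω₂ = l →
    0 < t.p ω₁ → 0 < t.p ω₂ → t.q ω₁ * t.p ω₂ ≠ t.q ω₂ * t.p ω₁ →
    (∀ ω, 0 < t.q ω → n (t.j ω) ≤ n l) → t.V u n Q → t.Mem S n

/-- RIG -/
def PRig : Prop := ∀ (S : Set ℕ) (u : ℕ → ℕ), Sp S u → ∀ (k : ℕ) (t : Pc k) (l : Fin k)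
  (n : Fin k → ℕ), Rig t l → ∃ K₀ : ℕ, ∀ Δ : ℕ, K₀ < Δ → ∃ a₀ : ℕ, ∀ a, a₀ ≤ a →
    ¬ (t.Mem S (Function.update n l a) ∧ t.Mem S (Function.update n l (a + Δ)))

/-- PIG -/
def PPig : Prop := PRig → ∀ (S : Set ℕ) (u : ℕ → ℕ), Sp S u → ∀ (k : ℕ) (L : List (Pc k))
  (t : Pc k) (ω : Fin t.r) (n : Fin k → ℕ) (H D : ℕ), t ∈ L → 0 < t.p ω → 0 < t.q ω → 0 < D →
  0 < H → t.q ω * D ∣ H → t.V u n H →
  UP {a | ∃ t' ∈ L, t'.Mem S (Function.update n (t.j ω) a)} →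
  ∃ w : ℕ, ∃ t' ∈ L, t'.Mem S (n + Pi.single (t.j ω) (w * D)) ∧ ¬ Rig t' (t.j ω)

/-- UNA -/
def PUna : Prop := ∀ (S : Set ℕ) (u : ℕ → ℕ), Sp S u →
  (∀ t : Pc 1, ¬ Rig t 0 → UP {a | t.Mem S (fun _ => a)}) →
  ∀ A : Set ℕ, Cls S {n : Fin 1 → ℕ | n 0 ∈ A} → ¬ UP A →
  ∃ a s h g : ℕ, 0 < h ∧ 0 < g ∧ (∀ i : ℕ, a + h * i ∈ A ↔ s + g * i ∈ S) ∧
    ∀ s' ∈ S, s ≤ s' → ∃ i, s' = s + g * i

/-- RCV -/
def PRcv : Prop := ∀ (X : Type) (L : Language X) (S : Set ℕ) (x w y : List X) (a s h g : ℕ),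
  (∀ i : ℕ, x ++ (List.replicate (a + h * i) w).flatten ++ y ∈ L ↔ s + g * i ∈ S) →
  (∀ s' ∈ S, s ≤ s' → ∃ i, s' = s + g * i) → (∃ v, v ∈ L) → InCone L (tal S)

end Pool.Agent.U831.MC
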