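import Mathlib
import Pool.Agent.U831.MC.Stm

/-!
Project MC (MP_3a8f7c_lc), package REC (helper796).
-/

set_option autoImplicit false

namespace Pool.Agent.U831.MC

open Pool.Agent.Helper288.Cone

theorem REC_indep {k : ℕ} (J : Finset (Fin k)) (K : Set (Fin k → ℕ))
    (hK : ∀ (n : Fin k → ℕ) (l : Fin k) (a : ℕ), l ∉ J → (Function.update n l a ∈ K ↔ n ∈ K))
    (n n' : Fin k → ℕ) (h : ∀ i ∈ J, n i = n' i) : n ∈ K ↔ n' ∈ K := by
  classical
  have key : ∀ F : Finset (Fin k), ((fun i => if i ∈ F then n' i else n i) ∈ K ↔ n ∈ K) := by
    intro F
    induction F using Finset.induction_on with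
    | empty => simp
    | insert l F hl ih =>
      by_cases hlJ : l ∈ J
      · have e : (fun i => if i ∈ insert l F then n' i else n i) =
            (fun i => if i ∈ F then n' i else n i) := by
          funext i
          by_cases hi : i = l
          · subst hi
            simp [hl, h i hlJ]
          · simp [hi]
        rw [e, ih]
      · have e : (fun i => if i ∈ insert l F then n' i else n i) =
            Function.update (fun i => if i ∈ F then n' i else n i) l (n' l) := by
          funext i
          by_cases hi : i = l
          · subst hi
            simp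
          · simp [hi]
        rw [e, hK _ _ _ hlJ, ih]
  have := key Finset.univ
  simp only [Finset.mem_univ, if_true] at this
  exact this.symm

/-- package REC -/
theorem t_REC : PRec := by
  classical
  intro hFix hStep S u hSp k K hK hUP
  have main : ∀ (m : ℕ) (J : Finset (Fin k)), J.card = m → ∀ (K : Set (Fin k → ℕ)), Cls S K →
      (∀ (n : Fin k → ℕ) (l : Fin k), UP {a | Function.update n l a ∈ K}) →
      (∀ (n : Fin k → ℕ) (l : Fin k) (a : ℕ), l ∉ J → (Function.update n l a ∈ K ↔ n ∈ K)) →
      Rec K := by
    intro m
    induction m using Nat.strong_induction_on with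
    | _ m ih =>
    intro J hJ K hK hUP hind
    obtain ⟨N, M, hM, hst⟩ := hStep S u hSp k K hK hUP
    have hrec : ∀ (j : Fin k) (a : ℕ), ∃ T' M' : ℕ, 0 < M' ∧
        (j ∈ J → RecTM T' M' {n : Fin k → ℕ | Function.update n j a ∈ K}) := by
      intro j a
      by_cases hj : j ∈ J
      · have hlt : (J.erase j).card < m := by
          rw [← hJ]
          exact Finset.card_erase_lt_of_mem hj
        have hA : ∀ (n : Fin k → ℕ) (l : Fin k), UP {a' | Function.update n l a' ∈
            {n : Fin k → ℕ | Function.update n j a ∈ K}} := by
          intro n l
          by_cases hl : l = j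
          · subst hl
            refine ⟨0, 1, one_pos, fun a' _ => ?_⟩
            simp
          · have := hUP (Function.update n j a) l
            have e : {a' | Function.update n l a' ∈ {n : Fin k → ℕ | Function.update n j a ∈ K}} =
                {a' | Function.update (Function.update n j a) l a' ∈ K} := by
              ext a'
              simp only [Set.mem_ofPred_eq]
              rw [Function.update_comm hl]
            rw [e]
            exact this
        have hB : ∀ (n : Fin k → ℕ) (l : Fin k) (a' : ℕ), l ∉ J.erase j →
            (Function.update n l a' ∈ {n : Fin k → ℕ | Function.update n j a ∈ K} ↔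
              n ∈ {n : Fin k → ℕ | Function.update n j a ∈ K}) := by
          intro n l a' hl
          by_cases hlj : l = j
          · subst hlj
            simp
          · have hlJ : l ∉ J := fun h => hl (Finset.mem_erase.2 ⟨hlj, h⟩)
            simp only [Set.mem_ofPred_eq]
            rw [Function.update_comm hlj, hind _ _ _ hlJ]
        obtain ⟨T', M', hM', h⟩ := ih (J.erase j).card hlt (J.erase j) rfl
          {n : Fin k → ℕ | Function.update n j a ∈ K} (hFix S k K j a hK) hA hB
        exact ⟨T', M', hM', fun _ => h⟩
      · exact ⟨0, 1, one_pos, fun h => absurd h hj⟩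
    choose T' M' hM' hR using hrec
    set TT := N + ∑ j, ∑ a ∈ Finset.range N, T' j a with hTT
    set MM := M * ∏ j, ∏ a ∈ Finset.range N, M' j a with hMM
    have hpos : 0 < MM := by
      refine Nat.mul_pos hM (Finset.prod_pos fun j _ => Finset.prod_pos fun a _ => hM' j a)
    refine ⟨TT, MM, hpos, ?_⟩
    intro n b hb
    have hNb : N ≤ n b := le_trans (Nat.le_add_right _ _) hb
    by_cases hbJ : b ∈ J
    · by_cases hall : ∀ j ∈ J, N ≤ n j
      · obtain ⟨t, ht⟩ : ∃ t, MM = t * M := ⟨_, by rw [hMM, mul_comm]⟩
        set n' : Fin k → ℕ := fun i => if i ∈ J then n i else N with hn'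
        have hn'N : ∀ i, N ≤ n' i := by
          intro i
          by_cases hi : i ∈ J
          · simp [hn', hi, hall i hi]
          · simp [hn', hi]
        have hit : ∀ t : ℕ, (n' ∈ K ↔ n' + Pi.single b (t * M) ∈ K) := by
          intro t
          induction t with
          | zero => simp
          | succ t iht =>
            have h3 := hst (n' + Pi.single b (t * M) : Fin k → ℕ)
              (fun i => le_trans (hn'N i) (by simp)) b
            have e : (n' + Pi.single b (t * M) + Pi.single b M : Fin k → ℕ) =
                n' + Pi.single b ((t + 1) * M) := by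
              rw [add_assoc, ← Pi.single_add]
              congr 2
              ring
            rw [e] at h3
            exact iht.trans h3
        have h1 : n ∈ K ↔ n' ∈ K := REC_indep J K hind n n' (fun i hi => by simp [hn', hi])
        have h2 : n + Pi.single b MM ∈ K ↔ n' + Pi.single b MM ∈ K :=
          REC_indep J K hind _ _ (fun i hi => by simp [hn', hi])
        rw [h1, h2, ht]
        exact hit t
      · push Not at hall
        obtain ⟨j, hj, hjN⟩ := hall
        have hjb : j ≠ b := by
          rintro rfl
          omega
        have hR' := (hR j (n j) hj).mono (T' := TT) (M' := MM) ?_ ?_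
        · have := hR' n b hb
          simp only [Set.mem_ofPred_eq, Function.update_eq_self] at this
          rw [this]
          have e : Function.update (n + Pi.single b MM) j (n j) = n + Pi.single b MM := by
            funext i
            by_cases hi : i = j
            · subst hi
              simp [hjb]
            · simp [hi]
          rw [e]
        · have h1 : T' j (n j) ≤ ∑ a ∈ Finset.range N, T' j a :=
            Finset.single_le_sum (f := fun a => T' j a) (fun _ _ => Nat.zero_le _)
              (Finset.mem_range.2 hjN)
          have h2 : ∑ a ∈ Finset.range N, T' j a ≤ ∑ j, ∑ a ∈ Finset.range N, T' j a :=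
            Finset.single_le_sum (f := fun j => ∑ a ∈ Finset.range N, T' j a)
              (fun _ _ => Nat.zero_le _) (Finset.mem_univ j)
          rw [hTT]
          omega
        · have h1 : M' j (n j) ∣ ∏ a ∈ Finset.range N, M' j a :=
            Finset.dvd_prod_of_mem (fun a => M' j a) (Finset.mem_range.2 hjN)
          have h2 : ∏ a ∈ Finset.range N, M' j a ∣ ∏ j, ∏ a ∈ Finset.range N, M' j a :=
            Finset.dvd_prod_of_mem (fun j => ∏ a ∈ Finset.range N, M' j a) (Finset.mem_univ j)
          exact (h1.trans h2).trans (Dvd.intro_left _ rfl)
    · have e : n + Pi.single b MM = Function.update n b (n b + MM) := by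
        funext i
        by_cases hi : i = b
        · subst hi
          simp
        · simp [hi]
      rw [e, hind _ _ _ hbJ]
  exact main _ Finset.univ rfl K hK hUP (fun n l a hl => absurd (Finset.mem_univ l) hl)

end Pool.Agent.U831.MC
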