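import Pool.Agent.U831.MC.Stm

/-!
Project MC, package RIG: rigid pieces do not contain two points at bounded distance (helper908).
-/

set_option autoImplicit false

namespace Pool.Agent.U831.MC

open Pool.Agent.Helper288.Cone

/-- the value on a rigid line -/
theorem RIG_val {k : ℕ} (t : Pc k) (l : Fin k) (n : Fin k → ℕ) (ω₀ : Fin t.r)
    (hfree : ∀ ω, t.p ω = 0 → t.q ω = 0)
    (hsl : ∀ ω, t.j ω = l → t.q ω * t.p ω₀ = t.q ω₀ * t.p ω) (a : ℕ) (x : Fin t.r → ℕ)
    (hx : Function.update n l a = t.pt x) :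
    ∃ E ≤ ∑ ω, n (t.j ω) * (t.q ω * t.p ω₀),
      t.p ω₀ * t.val x + t.q ω₀ * t.c l = t.p ω₀ * t.b + t.q ω₀ * a + E := by
  classical
  have h1 : a = t.c l + ∑ ω, if t.j ω = l then x ω * t.p ω else 0 := by
    have := congrFun hx l
    rw [Function.update_self] at this
    exact this
  have h2 : ∀ ω, t.j ω ≠ l → x ω * t.p ω ≤ n (t.j ω) := by
    intro ω hω
    have := congrFun hx (t.j ω)
    rw [Function.update_of_ne hω] at this
    rw [this]
    unfold Pc.pt lin
    have h3 : (if t.j ω = t.j ω then x ω * t.p ω else 0) ≤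
        ∑ s, if t.j s = t.j ω then x s * t.p s else 0 :=
      Finset.single_le_sum (f := fun s => if t.j s = t.j ω then x s * t.p s else 0)
        (fun _ _ => Nat.zero_le _) (Finset.mem_univ ω)
    rw [if_pos rfl] at h3
    omega
  refine ⟨∑ ω, if t.j ω = l then 0 else x ω * (t.q ω * t.p ω₀), ?_, ?_⟩
  · refine Finset.sum_le_sum fun ω _ => ?_
    split_ifs with hω
    · exact Nat.zero_le _
    · rcases Nat.eq_zero_or_pos (t.p ω) with hp | hp
      · rw [hfree ω hp]; simp
      · apply Nat.mul_le_mul_right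
        exact le_trans (Nat.le_mul_of_pos_right _ hp) (h2 ω hω)
  · have h4 : t.p ω₀ * t.val x = t.p ω₀ * t.b + ∑ ω, x ω * (t.q ω * t.p ω₀) := by
      unfold Pc.val
      rw [mul_add, Finset.mul_sum]
      congr 1
      refine Finset.sum_congr rfl fun ω _ => ?_
      ring
    have h5 : ∑ ω, x ω * (t.q ω * t.p ω₀) =
        t.q ω₀ * (∑ ω, if t.j ω = l then x ω * t.p ω else 0) +
          ∑ ω, if t.j ω = l then 0 else x ω * (t.q ω * t.p ω₀) := by
      rw [Finset.mul_sum, ← Finset.sum_add_distrib]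
      refine Finset.sum_congr rfl fun ω _ => ?_
      split_ifs with hω
      · rw [hsl ω hω]; ring
      · ring
    rw [h4, h5]
    conv_rhs => rw [h1]
    ring

theorem t_RIG : PRig := by
  intro S u hS k t l n hR
  obtain ⟨hfree, ω₀, -, hq, hp, hsl⟩ := hR
  refine ⟨∑ ω, n (t.j ω) * (t.q ω * t.p ω₀), fun Δ hΔ => ?_⟩
  set K := ∑ ω, n (t.j ω) * (t.q ω * t.p ω₀) with hK
  obtain ⟨s₀, hs₀⟩ := hS.res (t.q ω₀ * Δ + K + 1) (Nat.succ_pos _)
  refine ⟨t.c l + t.p ω₀ * s₀, fun a ha => ?_⟩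
  rintro ⟨⟨x, hxS, hx⟩, ⟨y, hyS, hy⟩⟩
  obtain ⟨E, hE, he⟩ := RIG_val t l n ω₀ hfree hsl a x hx
  obtain ⟨F, hF, hf⟩ := RIG_val t l n ω₀ hfree hsl (a + Δ) y hy
  rw [← hK] at hE hF
  generalize t.val x = s at *
  generalize t.val y = s' at *
  generalize t.p ω₀ = p at *
  generalize t.q ω₀ = q at *
  generalize t.c l = c at *
  generalize t.b = b at *
  -- the values are large
  have h1 : s₀ ≤ s := by
    have h2 : q * a ≥ q * c + p * s₀ := by
      calc q * a ≥ q * (c + p * s₀) := Nat.mul_le_mul_left _ ha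
        _ = q * c + q * (p * s₀) := by ring
        _ ≥ q * c + p * s₀ := Nat.add_le_add_left (Nat.le_mul_of_pos_left _ hq) _
    have h3 : p * s₀ ≤ p * s := by omega
    exact Nat.le_of_mul_le_mul_left h3 hp
  have h4 : p * s' + E = p * s + q * Δ + F := by
    have : q * (a + Δ) = q * a + q * Δ := by ring
    omega
  have h5 : Δ ≤ q * Δ := Nat.le_mul_of_pos_left _ hq
  have h6 : p * s < p * s' := by omega
  have h7 : s < s' := Nat.lt_of_mul_lt_mul_left h6
  obtain ⟨d, rfl⟩ := Nat.exists_eq_add_of_lt h7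
  have h8 : s ≡ s + d + 1 [MOD (q * Δ + K + 1)] :=
    (hs₀ s hxS h1).trans (hs₀ (s + d + 1) hyS (by omega)).symm
  have h9 : (q * Δ + K + 1) ∣ d + 1 := by
    have := (Nat.modEq_iff_dvd' (by omega)).1 h8
    have e : s + d + 1 - s = d + 1 := by omega
    rwa [e] at this
  have h10 := Nat.le_of_dvd (Nat.succ_pos d) h9
  have h11 : p * (s + d + 1) = p * s + p * (d + 1) := by ring
  have h12 : d + 1 ≤ p * (d + 1) := Nat.le_mul_of_pos_left _ hp
  omega

end Pool.Agent.U831.MC
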