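import Pool.Agent.U831.MC.Stm

/-!
Project MC (MP_3a8f7c_lc), package SET (helper913): a set of numbers with short gaps, constant residues and an
irrational profinite limit: `S = {x | exists K, (K+1)! <= x < (K+2)!, x = sum_{l<K} l! mod K!}`.
-/

set_option autoImplicit false

namespace Pool.Agent.U831.MC

open Finset

/-- the sum of the factorials of the numbers below `K` -/
def facSum (K : ℕ) : ℕ := ∑ l ∈ range K, l.factorial

theorem facSum_succ (K : ℕ) : facSum (K + 1) = facSum K + K.factorial := by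
  unfold facSum; rw [sum_range_succ]

theorem facSum_modEq (d H K : ℕ) (hHK : H ≤ K) (hd : d ∣ H.factorial) :
    facSum K ≡ facSum H [MOD d] := by
  induction K, hHK using Nat.le_induction with
  | base => rfl
  | succ K hK ih =>
    rw [facSum_succ]
    have h1 : K.factorial ≡ 0 [MOD d] :=
      (Nat.modEq_zero_iff_dvd.2 (hd.trans (Nat.factorial_dvd_factorial hK)))
    have := ih.add h1
    simpa using this

theorem facSum_le (m : ℕ) : facSum (m + 1) ≤ 2 * m.factorial := by
  induction m with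
  | zero => simp [facSum]
  | succ m ih =>
    rw [facSum_succ (m + 1)]
    rcases Nat.eq_zero_or_pos m with h | h
    · subst h; simp [facSum]
    · have : 2 * m.factorial ≤ (m + 1).factorial := by
        rw [Nat.factorial_succ]; exact Nat.mul_le_mul_right _ (by omega)
      omega

/-- the set -/
def setS : Set ℕ := {x | ∃ K : ℕ, (K + 1).factorial ≤ x ∧ x < (K + 2).factorial ∧
  x ≡ facSum K [MOD K.factorial]}

theorem exists_modEq (z M r : ℕ) (hM : 0 < M) (hz : M ≤ z + 1) :
    ∃ s, s ≤ z ∧ z < s + M ∧ s ≡ r [MOD M] := by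
  set t := (z + (M - r % M)) % M with ht
  have htM : t < M := Nat.mod_lt _ hM
  have htz : t ≤ z := by omega
  refine ⟨z - t, Nat.sub_le _ _, by omega, ?_⟩
  have hr : r % M < M := Nat.mod_lt _ hM
  have h1 : t ≡ z + (M - r % M) [MOD M] := Nat.mod_modEq _ _
  have h2 : t + r % M ≡ z [MOD M] := by
    have h3 := h1.add_right (r % M)
    have h4 : z + (M - r % M) + r % M = z + M := by omega
    rw [h4] at h3
    exact h3.trans (by simp [Nat.ModEq])
  have h5 : (z - t) + t = z := Nat.sub_add_cancel htz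
  have h6 : (z - t) + t ≡ r % M + t [MOD M] := by
    rw [h5, add_comm (r % M) t]; exact h2.symm
  exact (Nat.ModEq.add_right_cancel' t h6).trans (Nat.mod_modEq _ _)

theorem exists_block (c y : ℕ) (hy : (c + 2).factorial ≤ y) :
    ∃ K : ℕ, c ≤ K ∧ (K + 1).factorial ≤ y ∧ y < (K + 2).factorial := by
  have hex : ∃ n : ℕ, y < n.factorial := by
    refine ⟨y + 3, ?_⟩
    have := Nat.self_le_factorial (y + 3)
    omega
  have hn := Nat.find_spec hex
  have hmin : ∀ m, m < Nat.find hex → m.factorial ≤ y := fun m hm => not_lt.1 (Nat.find_min hex hm)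
  have hlt : c + 2 < Nat.find hex := by
    by_contra h
    have := Nat.factorial_le (not_lt.1 h)
    omega
  refine ⟨Nat.find hex - 2, by omega, hmin _ (by omega), ?_⟩
  have : Nat.find hex - 2 + 2 = Nat.find hex := by omega
  rw [this]; exact hn

theorem setS_hit (c : ℕ) : ∃ y₀ : ℕ, ∀ y, y₀ ≤ y → ∃ s ∈ setS, s ≤ y ∧ c * (y - s) ≤ y := by
  refine ⟨(2 * c + 1 + 2).factorial, fun y hy => ?_⟩
  obtain ⟨K, hcK, hK1, hK2⟩ := exists_block (2 * c + 1) y hy
  obtain ⟨k, rfl⟩ : ∃ k, K = k + 1 := ⟨K - 1, by omega⟩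
  have hf1 : 0 < (k + 1).factorial := Nat.factorial_pos _
  have hf0 : 0 < k.factorial := Nat.factorial_pos _
  have e2 : (k + 1 + 1).factorial = (k + 2) * (k + 1).factorial := Nat.factorial_succ _
  have e1 : (k + 1).factorial = (k + 1) * k.factorial := Nat.factorial_succ _
  have hle0 : k.factorial ≤ (k + 1).factorial := Nat.factorial_le (Nat.le_succ k)
  have hkey : c * (2 * (k + 1).factorial) ≤ (k + 1 + 1).factorial := by
    rw [e2]
    calc c * (2 * (k + 1).factorial) = (2 * c) * (k + 1).factorial := by ring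
      _ ≤ (k + 2) * (k + 1).factorial := Nat.mul_le_mul_right _ (by omega)
  have hle1 : (k + 1).factorial ≤ (k + 1 + 1).factorial := Nat.factorial_le (Nat.le_succ _)
  rcases Nat.lt_or_ge y ((k + 1 + 1).factorial + (k + 1).factorial) with h | h
  · -- the block before
    have hz : k.factorial ≤ ((k + 1 + 1).factorial - 1) + 1 := by omega
    obtain ⟨s, hs1, hs2, hs3⟩ := exists_modEq ((k + 1 + 1).factorial - 1) k.factorial (facSum k) hf0 hz
    have hs4 : (k + 1 + 1).factorial ≤ s + k.factorial := by omega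
    have hs5 : (k + 1).factorial ≤ s := by
      have : 2 * (k + 1).factorial ≤ (k + 1 + 1).factorial := by
        rw [e2]; exact Nat.mul_le_mul_right _ (by omega)
      omega
    have hs6 : s < (k + 2).factorial := by
      show s < (k + 1 + 1).factorial
      have := Nat.factorial_pos (k + 1 + 1)
      omega
    refine ⟨s, ⟨k, hs5, hs6, hs3⟩, by omega, ?_⟩
    calc c * (y - s) ≤ c * (2 * (k + 1).factorial) := Nat.mul_le_mul_left _ (by omega)
      _ ≤ (k + 1 + 1).factorial := hkey
      _ ≤ y := hK1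
  · have hz : (k + 1).factorial ≤ y + 1 := by omega
    obtain ⟨s, hs1, hs2, hs3⟩ := exists_modEq y (k + 1).factorial (facSum (k + 1)) hf1 hz
    refine ⟨s, ⟨k + 1, by omega, by omega, hs3⟩, hs1, ?_⟩
    calc c * (y - s) ≤ c * (2 * (k + 1).factorial) := Nat.mul_le_mul_left _ (by omega)
      _ ≤ (k + 1 + 1).factorial := hkey
      _ ≤ y := hK1

theorem setS_res (H : ℕ) (hH : 0 < H) : ∃ s₀ : ℕ, ∀ s ∈ setS, s₀ ≤ s → s ≡ facSum H [MOD H] := by
  refine ⟨(H + 1).factorial, ?_⟩
  rintro s ⟨K, h1, h2, h3⟩ hs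
  have hHK : H ≤ K := by
    by_contra h
    have : (K + 2).factorial ≤ (H + 1).factorial := Nat.factorial_le (by omega)
    omega
  have hdvd : H ∣ K.factorial := (Nat.dvd_factorial hH le_rfl).trans (Nat.factorial_dvd_factorial hHK)
  exact (h3.of_dvd hdvd).trans (facSum_modEq H H K hHK (Nat.dvd_factorial hH le_rfl))

theorem setS_irr (A B : ℤ) (hA : A ≠ 0) :
    ∃ H : ℕ, 0 < H ∧ ¬ (A * (facSum H : ℤ) ≡ B [ZMOD (H : ℤ)]) := by
  by_contra hcon
  push Not at hcon
  have key : ∀ m : ℕ, 2 * A.natAbs + B.natAbs ≤ m → A * (facSum (m + 1) : ℤ) = B := by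
    intro m hm
    have h1 := hcon (m + 1).factorial (Nat.factorial_pos _)
    have h2 : facSum (m + 1).factorial ≡ facSum (m + 1) [MOD (m + 1).factorial] :=
      facSum_modEq _ _ _ (Nat.self_le_factorial _) dvd_rfl
    have h3 : (facSum (m + 1).factorial : ℤ) ≡ (facSum (m + 1) : ℤ) [ZMOD ((m + 1).factorial : ℤ)] :=
      (Int.natCast_modEq_iff).2 h2
    have h4 : A * (facSum (m + 1) : ℤ) ≡ B [ZMOD ((m + 1).factorial : ℤ)] :=
      ((h3.mul_left A).symm).trans h1
    have h5 : ((m + 1).factorial : ℤ) ∣ B - A * (facSum (m + 1) : ℤ) := h4.dvd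
    have h6 : B - A * (facSum (m + 1) : ℤ) = 0 := by
      apply Int.eq_zero_of_abs_lt_dvd h5
      have e1 : |B - A * (facSum (m + 1) : ℤ)| ≤ |B| + |A| * (facSum (m + 1) : ℤ) := by
        refine (abs_sub _ _).trans ?_
        rw [abs_mul, abs_of_nonneg (Int.natCast_nonneg (facSum (m + 1)))]
      have e2 : |B| = (B.natAbs : ℤ) := Int.abs_eq_natAbs B
      have e3 : |A| = (A.natAbs : ℤ) := Int.abs_eq_natAbs A
      refine lt_of_le_of_lt e1 ?_
      rw [e2, e3]
      have hf := Nat.factorial_pos m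
      have hnat : B.natAbs + A.natAbs * facSum (m + 1) < (m + 1).factorial := by
        calc B.natAbs + A.natAbs * facSum (m + 1)
            ≤ B.natAbs * m.factorial + A.natAbs * (2 * m.factorial) :=
              Nat.add_le_add (Nat.le_mul_of_pos_right _ hf) (Nat.mul_le_mul_left _ (facSum_le m))
          _ = (2 * A.natAbs + B.natAbs) * m.factorial := by ring
          _ ≤ m * m.factorial := Nat.mul_le_mul_right _ hm
          _ < (m + 1) * m.factorial := by nlinarith
          _ = (m + 1).factorial := (Nat.factorial_succ m).symm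
      exact_mod_cast hnat
    omega
  have h1 := key (2 * A.natAbs + B.natAbs) le_rfl
  have h2 := key (2 * A.natAbs + B.natAbs + 1) (Nat.le_succ _)
  rw [facSum_succ (2 * A.natAbs + B.natAbs + 1)] at h2
  push_cast at h2
  rw [mul_add, h1] at h2
  have h3 : A * (((2 * A.natAbs + B.natAbs + 1).factorial : ℕ) : ℤ) = 0 := by
    linarith
  rcases mul_eq_zero.1 h3 with h | h
  · exact hA h
  · have := Nat.factorial_pos (2 * A.natAbs + B.natAbs + 1)
    have h4 : (2 * A.natAbs + B.natAbs + 1).factorial = 0 := by exact_mod_cast h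
    omega

theorem t_SET : PSet := ⟨setS, facSum, ⟨setS_hit, setS_res, setS_irr⟩⟩

end Pool.Agent.U831.MC
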