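import Pool.Agent.U831.MC.Stm

set_option autoImplicit false

/-!
Package UNA of project MC (MP_3a8f7c_lc, Q2): unary sets of the class that are not eventually
periodic.
-/

namespace Pool.Agent.U831.MC

open Pool.Agent.Helper288.Cone

namespace UNA

lemma Sp.inf {S : Set ℕ} {u : ℕ → ℕ} (h : Sp S u) (N : ℕ) : ∃ s ∈ S, N ≤ s := by
  obtain ⟨y₀, hy⟩ := h.hit 2
  obtain ⟨s, hs, h1, h2⟩ := hy (max y₀ (2 * N)) (le_max_left _ _)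
  refine ⟨s, hs, ?_⟩
  have := le_max_right y₀ (2 * N)
  omega

lemma iter {A : Set ℕ} {T M : ℕ} (h : ∀ a, T ≤ a → (a ∈ A ↔ a + M ∈ A)) :
    ∀ i a, T ≤ a → (a ∈ A ↔ a + M * i ∈ A) := by
  intro i
  induction i with
  | zero => intro a _; simp
  | succ i ih =>
    intro a ha
    rw [ih a ha, h (a + M * i) (by omega)]
    rw [show a + M * i + M = a + M * (i + 1) by ring]

lemma UP.empty : UP (∅ : Set ℕ) := ⟨0, 1, one_pos, fun a _ => by simp⟩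

lemma UP.union {A B : Set ℕ} (hA : UP A) (hB : UP B) : UP (A ∪ B) := by
  obtain ⟨T, M, hM, h⟩ := hA
  obtain ⟨T', M', hM', h'⟩ := hB
  refine ⟨max T T', M * M', Nat.mul_pos hM hM', fun a ha => ?_⟩
  have h1 := iter h M' a (le_trans (le_max_left _ _) ha)
  have h2 := iter h' M a (le_trans (le_max_right _ _) ha)
  rw [Set.mem_union, Set.mem_union, h1, h2, mul_comm M' M]

lemma UP.congr {A B : Set ℕ} (hA : UP A) (T' : ℕ) (h : ∀ a, T' ≤ a → (a ∈ B ↔ a ∈ A)) :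
    UP B := by
  obtain ⟨T, M, hM, h'⟩ := hA
  refine ⟨max T T', M, hM, fun a ha => ?_⟩
  rw [h a (le_trans (le_max_right _ _) ha),
    h (a + M) (le_trans (le_max_right T T') (le_trans ha (Nat.le_add_right _ _))),
    h' a (le_trans (le_max_left _ _) ha)]

/-- a set closed under addition of a positive number is eventually periodic -/
lemma UP.of_closed {P : Set ℕ} {p : ℕ} (hp : 0 < p) (h : ∀ a ∈ P, a + p ∈ P) : UP P := by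
  classical
  have hc : ∀ i a, a ∈ P → a + p * i ∈ P := by
    intro i
    induction i with
    | zero => intro a ha; simpa using ha
    | succ i ih =>
      intro a ha
      have := h _ (ih a ha)
      rwa [show a + p * i + p = a + p * (i + 1) by ring] at this
  have hT : ∀ r : ℕ, ∃ T, ∀ a, T ≤ a → a % p = r → (a + p ∈ P) → a ∈ P := by
    intro r
    by_cases hr : ∃ a ∈ P, a % p = r
    · obtain ⟨a0, ha0, hr0⟩ := hr
      refine ⟨a0, fun a ha har _ => ?_⟩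
      have hmod : a0 ≡ a [MOD p] := by
        unfold Nat.ModEq; rw [hr0, har]
      obtain ⟨i, hi⟩ := (Nat.modEq_iff_dvd' ha).1 hmod
      have : a = a0 + p * i := by omega
      rw [this]
      exact hc i a0 ha0
    · refine ⟨0, fun a _ har hap => ?_⟩
      exfalso
      exact hr ⟨a + p, hap, by simpa using har⟩
  choose T hT using hT
  refine ⟨∑ r ∈ Finset.range p, T r, p, hp, fun a ha => ⟨h a, fun hap => ?_⟩⟩
  refine hT (a % p) a (le_trans ?_ ha) rfl hap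
  exact Finset.single_le_sum (f := T) (fun _ _ => Nat.zero_le _)
    (Finset.mem_range.2 (Nat.mod_lt a hp))

/-- a line -/
structure Ln where
  p : ℕ
  q : ℕ
  γ : ℕ
  δ : ℕ
  P : Set ℕ

def Ln.Good (ℓ : Ln) : Prop := 0 < ℓ.p ∧ 0 < ℓ.q ∧ UP ℓ.P

def Ln.on (ℓ : Ln) (s a : ℕ) : Prop := ℓ.p * s + ℓ.γ = ℓ.δ + ℓ.q * a

def Ln.Mem (S : Set ℕ) (ℓ : Ln) (a : ℕ) : Prop := a ∈ ℓ.P ∧ ∃ s ∈ S, ℓ.on s a

lemma ln_of_rig (S : Set ℕ) (t : Pc 1) (h : Rig t 0) :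
    ∃ ℓ : Ln, ℓ.Good ∧ ∀ a, t.Mem S (fun _ => a) ↔ ℓ.Mem S a := by
  classical
  obtain ⟨h1, ω₀, -, hq, hp, hs⟩ := h
  have hj : ∀ ω, t.j ω = 0 := fun ω => Subsingleton.elim _ _
  have hpt : ∀ x, t.pt x = fun _ => t.c 0 + ∑ ω, x ω * t.p ω := by
    intro x
    funext b
    have hb : b = 0 := Subsingleton.elim _ _
    subst hb
    simp [Pc.pt, lin, hj]
  have hkey : ∀ x : Fin t.r → ℕ, t.p ω₀ * t.val x + t.q ω₀ * t.c 0 =
      t.p ω₀ * t.b + t.q ω₀ * (t.c 0 + ∑ ω, x ω * t.p ω) := by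
    intro x
    have e : t.p ω₀ * ∑ ω, x ω * t.q ω = t.q ω₀ * ∑ ω, x ω * t.p ω := by
      rw [Finset.mul_sum, Finset.mul_sum]
      refine Finset.sum_congr rfl fun ω _ => ?_
      have := hs ω (hj ω)
      calc t.p ω₀ * (x ω * t.q ω) = x ω * (t.q ω * t.p ω₀) := by ring
        _ = x ω * (t.q ω₀ * t.p ω) := by rw [this]
        _ = t.q ω₀ * (x ω * t.p ω) := by ring
    unfold Pc.val
    rw [mul_add, mul_add, e]
    ring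
  refine ⟨⟨t.p ω₀, t.q ω₀, t.q ω₀ * t.c 0, t.p ω₀ * t.b,
    {a | ∃ x : Fin t.r → ℕ, a = t.c 0 + ∑ ω, x ω * t.p ω}⟩, ⟨hp, hq, ?_⟩, ?_⟩
  · refine UP.of_closed (p := t.p ω₀) hp ?_
    rintro a ⟨x, rfl⟩
    refine ⟨x + Pi.single ω₀ 1, ?_⟩
    simp only [Pi.add_apply, add_mul, Finset.sum_add_distrib]
    rw [Finset.sum_eq_single_of_mem ω₀ (Finset.mem_univ _)
      (f := fun ω => (Pi.single ω₀ 1 : Fin t.r → ℕ) ω * t.p ω)]
    · simp; ring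
    · intro b _ hb
      simp [Pi.single_eq_of_ne hb]
  · intro a
    constructor
    · rintro ⟨x, hx, hn⟩
      rw [hpt] at hn
      have ha : a = t.c 0 + ∑ ω, x ω * t.p ω := congrFun hn 0
      refine ⟨⟨x, ha⟩, t.val x, hx, ?_⟩
      show t.p ω₀ * t.val x + t.q ω₀ * t.c 0 = t.p ω₀ * t.b + t.q ω₀ * a
      rw [ha]
      exact hkey x
    · rintro ⟨⟨x, ha⟩, s, hsS, hon⟩
      have hon' : t.p ω₀ * s + t.q ω₀ * t.c 0 = t.p ω₀ * t.b + t.q ω₀ * a := hon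
      have hk := hkey x
      rw [← ha] at hk
      have : t.p ω₀ * s = t.p ω₀ * t.val x := by omega
      have hsx : s = t.val x := Nat.eq_of_mul_eq_mul_left hp this
      refine ⟨x, hsx ▸ hsS, ?_⟩
      rw [hpt, ha]

lemma decomp (S : Set ℕ) (hNR : ∀ t : Pc 1, ¬ Rig t 0 → UP {a | t.Mem S (fun _ => a)})
    (L : List (Pc 1)) :
    ∃ (Y : Set ℕ) (L' : List Ln), UP Y ∧ (∀ ℓ ∈ L', ℓ.Good) ∧
      ∀ a, (∃ t ∈ L, t.Mem S (fun _ => a)) ↔ (a ∈ Y ∨ ∃ ℓ ∈ L', ℓ.Mem S a) := by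
  induction L with
  | nil => exact ⟨∅, [], UP.empty, by simp, by simp⟩
  | cons t L ih =>
    obtain ⟨Y, L', hY, hL', h⟩ := ih
    by_cases ht : Rig t 0
    · obtain ⟨ℓ, hℓ, hm⟩ := ln_of_rig S t ht
      refine ⟨Y, ℓ :: L', hY, ?_, fun a => ?_⟩
      · intro ℓ' hℓ'
        rcases List.mem_cons.1 hℓ' with rfl | h'
        · exact hℓ
        · exact hL' _ h'
      · have e1 : (∃ t' ∈ t :: L, t'.Mem S (fun _ => a)) ↔
            (t.Mem S (fun _ => a) ∨ ∃ t' ∈ L, t'.Mem S (fun _ => a)) := by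
          simp [List.mem_cons, or_and_right, exists_or]
        have e2 : (∃ ℓ' ∈ ℓ :: L', ℓ'.Mem S a) ↔ (ℓ.Mem S a ∨ ∃ ℓ' ∈ L', ℓ'.Mem S a) := by
          simp [List.mem_cons, or_and_right, exists_or]
        rw [e1, e2, h a, hm a]
        tauto
    · refine ⟨{a | t.Mem S (fun _ => a)} ∪ Y, L', UP.union (hNR t ht) hY, hL', fun a => ?_⟩
      have e1 : (∃ t' ∈ t :: L, t'.Mem S (fun _ => a)) ↔
          (t.Mem S (fun _ => a) ∨ ∃ t' ∈ L, t'.Mem S (fun _ => a)) := by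
        simp [List.mem_cons, or_and_right, exists_or]
      rw [e1, h a, Set.mem_union, Set.mem_ofPred_eq]
      tauto

/-- transfer along residues -/
lemma transfer {ℓ : Ln} (hp : 0 < ℓ.p) (hq : 0 < ℓ.q) {Z : Set ℕ} {T M : ℕ}
    (hZ : ∀ a, T ≤ a → (a ∈ Z ↔ a + M ∈ Z)) {s s' : ℕ}
    (hss : s ≡ s' [MOD (ℓ.q * M)]) (h1 : ℓ.δ + ℓ.q * T ≤ ℓ.p * s + ℓ.γ)
    (h2 : ℓ.δ + ℓ.q * T ≤ ℓ.p * s' + ℓ.γ) (h : ∃ a ∈ Z, ℓ.on s a) : ∃ a ∈ Z, ℓ.on s' a := by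
  obtain ⟨a, ha, hon⟩ := h
  unfold Ln.on at *
  have haT : T ≤ a := by
    have : ℓ.q * T ≤ ℓ.q * a := by omega
    exact Nat.le_of_mul_le_mul_left this hq
  rcases le_total s s' with hle | hle
  · obtain ⟨j, hj⟩ := (Nat.modEq_iff_dvd' hle).1 hss
    have hs' : s' = s + ℓ.q * M * j := by omega
    refine ⟨a + M * (ℓ.p * j), (iter hZ (ℓ.p * j) a haT).1 ha, ?_⟩
    rw [hs']
    have : ℓ.p * (s + ℓ.q * M * j) + ℓ.γ = (ℓ.p * s + ℓ.γ) + ℓ.p * (ℓ.q * M * j) := by ring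
    rw [this, hon]
    ring
  · obtain ⟨j, hj⟩ := (Nat.modEq_iff_dvd' hle).1 hss.symm
    have hs' : s = s' + ℓ.q * M * j := by omega
    have hk : ℓ.q * a + ℓ.δ = (ℓ.p * s' + ℓ.γ) + ℓ.q * (M * (ℓ.p * j)) := by
      have : ℓ.p * s + ℓ.γ = (ℓ.p * s' + ℓ.γ) + ℓ.q * (M * (ℓ.p * j)) := by rw [hs']; ring
      omega
    have hge : T + M * (ℓ.p * j) ≤ a := by
      have : ℓ.q * (T + M * (ℓ.p * j)) ≤ ℓ.q * a := by
        rw [mul_add]; omega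
      exact Nat.le_of_mul_le_mul_left this hq
    obtain ⟨a', rfl⟩ : ∃ a', a = a' + M * (ℓ.p * j) := ⟨a - M * (ℓ.p * j), by omega⟩
    refine ⟨a', (iter hZ (ℓ.p * j) a' (by omega)).2 ha, ?_⟩
    rw [mul_add] at hk
    omega

/-- dichotomy -/
lemma dich {S : Set ℕ} {u : ℕ → ℕ} (hS : Sp S u) {ℓ : Ln} (hp : 0 < ℓ.p) (hq : 0 < ℓ.q)
    {Z : Set ℕ} (hZ : UP Z) :
    (∃ N, ∀ s ∈ S, N ≤ s → ∃ a ∈ Z, ℓ.on s a) ∨
      (∃ N, ∀ s ∈ S, N ≤ s → ¬ ∃ a ∈ Z, ℓ.on s a) := by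
  obtain ⟨T, M, hM, hZ⟩ := hZ
  obtain ⟨s₀, hs₀⟩ := hS.res (ℓ.q * M) (Nat.mul_pos hq hM)
  set N := max s₀ (ℓ.δ + ℓ.q * T) with hN
  have hbig : ∀ s, N ≤ s → ℓ.δ + ℓ.q * T ≤ ℓ.p * s + ℓ.γ := by
    intro s hs
    have : ℓ.δ + ℓ.q * T ≤ s := le_trans (le_max_right _ _) hs
    have h2 : s ≤ ℓ.p * s := Nat.le_mul_of_pos_left s hp
    omega
  have hmod : ∀ s ∈ S, ∀ s' ∈ S, N ≤ s → N ≤ s' → s ≡ s' [MOD (ℓ.q * M)] := by
    intro s hs s' hs' h1 h2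
    exact (hs₀ s hs (le_trans (le_max_left _ _) h1)).trans
      (hs₀ s' hs' (le_trans (le_max_left _ _) h2)).symm
  obtain ⟨s1, hs1, hN1⟩ := Sp.inf hS N
  by_cases h : ∃ a ∈ Z, ℓ.on s1 a
  · left
    exact ⟨N, fun s hs hsN => transfer hp hq hZ (hmod s1 hs1 s hs hN1 hsN) (hbig s1 hN1)
      (hbig s hsN) h⟩
  · right
    exact ⟨N, fun s hs hsN h' => h (transfer hp hq hZ (hmod s hs s1 hs1 hsN hN1) (hbig s hsN)
      (hbig s1 hN1) h')⟩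

/-- separation from another line -/
lemma sep {S : Set ℕ} {u : ℕ → ℕ} (hS : Sp S u) {ℓ ℓ' : Ln} (hp : 0 < ℓ.p) (hq : 0 < ℓ.q)
    (hp' : 0 < ℓ'.p) (hq' : 0 < ℓ'.q) :
    ∃ H : ℕ, 0 < H ∧ ∃ T : ℕ, ∀ s1 ∈ S, T ≤ s1 → ∀ s' ∈ S, ∀ a, T ≤ a → ∀ e, H ∣ e →
      ℓ.on (s1 + e) a → ℓ'.on s' a → s' = s1 + e := by
  set A : ℤ := (ℓ.q : ℤ) * ℓ'.p - ℓ'.q * ℓ.p with hA
  set κ : ℤ := (ℓ.q : ℤ) * ℓ'.δ - ℓ.q * ℓ'.γ - ℓ'.q * ℓ.δ + ℓ'.q * ℓ.γ with hκ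
  have hrel : ∀ s1 s' a e : ℕ, ℓ.on (s1 + e) a → ℓ'.on s' a →
      (ℓ.q : ℤ) * ℓ'.p * s' - ℓ'.q * ℓ.p * (s1 + e) = κ := by
    intro s1 s' a e h1 h2
    unfold Ln.on at h1 h2
    have h1' : (ℓ.p : ℤ) * (s1 + e) + ℓ.γ = ℓ.δ + ℓ.q * a := by exact_mod_cast h1
    have h2' : (ℓ'.p : ℤ) * s' + ℓ'.γ = ℓ'.δ + ℓ'.q * a := by exact_mod_cast h2
    rw [hκ]
    linear_combination (-(ℓ'.q : ℤ)) * h1' + (ℓ.q : ℤ) * h2'
  have hbig : ∀ N : ℕ, ∀ s' a : ℕ, ℓ'.p * N + ℓ'.γ ≤ a → ℓ'.on s' a → N ≤ s' := by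
    intro N s' a ha h
    unfold Ln.on at h
    have h2 : a ≤ ℓ'.q * a := Nat.le_mul_of_pos_left a hq'
    have : ℓ'.p * N ≤ ℓ'.p * s' := by omega
    exact Nat.le_of_mul_le_mul_left this hp'
  by_cases hA0 : A = 0
  · set H : ℕ := κ.natAbs + 1 with hH
    obtain ⟨s₀, hs₀⟩ := hS.res H (by omega)
    refine ⟨H, by omega, max s₀ (ℓ'.p * s₀ + ℓ'.γ), ?_⟩
    intro s1 hs1 hT s' hs' a ha e he h1 h2
    have hs'0 : s₀ ≤ s' := hbig s₀ s' a (le_trans (le_max_right _ _) ha) h2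
    have hm : s1 ≡ s' [MOD H] :=
      (hs₀ s1 hs1 (le_trans (le_max_left _ _) hT)).trans (hs₀ s' hs' hs'0).symm
    have hr := hrel s1 s' a e h1 h2
    have hd : (H : ℤ) ∣ (s' : ℤ) - s1 := (Nat.modEq_iff_dvd.1 hm)
    have hde : (H : ℤ) ∣ (e : ℤ) := by exact_mod_cast he
    have hAe : (ℓ.q : ℤ) * ℓ'.p = ℓ'.q * ℓ.p := by
      have := hA0; rw [hA] at this; linarith
    have hk : κ = (ℓ.q : ℤ) * ℓ'.p * ((s' - s1) - e) := by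
      rw [← hr]
      linear_combination (s1 + e : ℤ) * hAe
    have hdk : (H : ℤ) ∣ κ := by
      rw [hk]
      exact Dvd.dvd.mul_left (dvd_sub hd hde) _
    have hk0 : κ = 0 := by
      refine Int.eq_zero_of_abs_lt_dvd hdk ?_
      rw [hH]
      push_cast
      rw [Int.abs_eq_natAbs]
      omega
    rw [hk0] at hk
    have hpos : (0 : ℤ) < (ℓ.q : ℤ) * ℓ'.p := by positivity
    have hz : ((s' : ℤ) - s1) - e = 0 := by
      rcases mul_eq_zero.1 hk.symm with h | h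
      · omega
      · exact h
    omega
  · obtain ⟨H, hH, hne⟩ := hS.irr A κ hA0
    obtain ⟨s₀, hs₀⟩ := hS.res H hH
    refine ⟨H, hH, max s₀ (ℓ'.p * s₀ + ℓ'.γ), ?_⟩
    intro s1 hs1 hT s' hs' a ha e he h1 h2
    exfalso
    apply hne
    have hs'0 : s₀ ≤ s' := hbig s₀ s' a (le_trans (le_max_right _ _) ha) h2
    have hr := hrel s1 s' a e h1 h2
    have m1 : (s1 : ℤ) ≡ (u H : ℤ) [ZMOD (H : ℤ)] :=
      (Int.natCast_modEq_iff).2 (hs₀ s1 hs1 (le_trans (le_max_left _ _) hT))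
    have m2 : (s' : ℤ) ≡ (u H : ℤ) [ZMOD (H : ℤ)] :=
      (Int.natCast_modEq_iff).2 (hs₀ s' hs' hs'0)
    have m3 : (e : ℤ) ≡ 0 [ZMOD (H : ℤ)] :=
      (Int.modEq_zero_iff_dvd).2 (by exact_mod_cast he)
    have m4 := (m2.mul_left ((ℓ.q : ℤ) * ℓ'.p)).sub ((m1.add m3).mul_left ((ℓ'.q : ℤ) * ℓ.p))
    rw [hr] at m4
    have m5 : (ℓ.q : ℤ) * ℓ'.p * (u H) - ℓ'.q * ℓ.p * ((u H : ℤ) + 0) = A * (u H) := by
      rw [hA]; ring
    rw [m5] at m4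
    exact m4.symm

lemma sepList {S : Set ℕ} {u : ℕ → ℕ} (hS : Sp S u) {ℓ : Ln} (hp : 0 < ℓ.p) (hq : 0 < ℓ.q)
    (L : List Ln) (hL : ∀ ℓ' ∈ L, ℓ'.Good) :
    ∃ H : ℕ, 0 < H ∧ ∃ T : ℕ, ∀ ℓ' ∈ L, ∀ s1 ∈ S, T ≤ s1 → ∀ s' ∈ S, ∀ a, T ≤ a → ∀ e, H ∣ e →
      ℓ.on (s1 + e) a → ℓ'.on s' a → s' = s1 + e := by
  induction L with
  | nil => exact ⟨1, one_pos, 0, by simp⟩
  | cons ℓ₁ L ih =>
    obtain ⟨H, hH, T, h⟩ := ih (fun ℓ' h' => hL ℓ' (List.mem_cons_of_mem _ h'))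
    obtain ⟨hp1, hq1, -⟩ := hL ℓ₁ List.mem_cons_self
    obtain ⟨H', hH', T', h'⟩ := sep hS hp hq hp1 hq1
    refine ⟨H * H', Nat.mul_pos hH hH', max T T', ?_⟩
    intro ℓ' hℓ' s1 hs1 hT s' hs' a ha e he h1 h2
    rcases List.mem_cons.1 hℓ' with rfl | hmem
    · exact h' s1 hs1 (le_trans (le_max_right _ _) hT) s' hs' a (le_trans (le_max_right _ _) ha) e
        (dvd_trans (Dvd.intro_left _ rfl) he) h1 h2
    · exact h ℓ' hmem s1 hs1 (le_trans (le_max_left _ _) hT) s' hs' a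
        (le_trans (le_max_left _ _) ha) e (dvd_trans (Dvd.intro _ rfl) he) h1 h2

/-- a line that adds only finitely many points to `Y` -/
def Bad (S : Set ℕ) (Y : Set ℕ) (ℓ : Ln) : Prop := ∃ T, ∀ a, T ≤ a → ℓ.Mem S a → a ∈ Y

lemma bad_of {S : Set ℕ} {Y : Set ℕ} {ℓ : Ln} (hq : 0 < ℓ.q)
    (h : (∃ N, ∀ s ∈ S, N ≤ s → ¬ ∃ a ∈ ℓ.P, ℓ.on s a) ∨
      (∃ N, ∀ s ∈ S, N ≤ s → ∃ a ∈ Y, ℓ.on s a)) : Bad S Y ℓ := by
  have hbig : ∀ N : ℕ, ∀ s a : ℕ, ℓ.p * N + ℓ.γ + 1 ≤ a → ℓ.on s a → N ≤ s := by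
    intro N s a ha h
    unfold Ln.on at h
    have h2 : a ≤ ℓ.q * a := Nat.le_mul_of_pos_left a hq
    have : ℓ.p * N < ℓ.p * s := by omega
    exact le_of_lt (Nat.lt_of_mul_lt_mul_left this)
  rcases h with ⟨N, h⟩ | ⟨N, h⟩
  · refine ⟨ℓ.p * N + ℓ.γ + 1, ?_⟩
    rintro a ha ⟨haP, s, hs, hon⟩
    exact absurd ⟨a, haP, hon⟩ (h s hs (hbig N s a ha hon))
  · refine ⟨ℓ.p * N + ℓ.γ + 1, ?_⟩
    rintro a ha ⟨haP, s, hs, hon⟩
    obtain ⟨a', ha', hon'⟩ := h s hs (hbig N s a ha hon)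
    unfold Ln.on at hon hon'
    have : ℓ.q * a = ℓ.q * a' := by omega
    rwa [Nat.eq_of_mul_eq_mul_left hq this]

lemma allBad {S : Set ℕ} {Y : Set ℕ} (L : List Ln) (h : ∀ ℓ ∈ L, Bad S Y ℓ) :
    ∃ T, ∀ a, T ≤ a → (∃ ℓ ∈ L, ℓ.Mem S a) → a ∈ Y := by
  induction L with
  | nil => exact ⟨0, by simp⟩
  | cons ℓ L ih =>
    obtain ⟨T, hT⟩ := ih (fun ℓ' h' => h ℓ' (List.mem_cons_of_mem _ h'))
    obtain ⟨T', hT'⟩ := h ℓ List.mem_cons_self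
    refine ⟨max T T', ?_⟩
    rintro a ha ⟨ℓ', hℓ', hm⟩
    rcases List.mem_cons.1 hℓ' with rfl | hmem
    · exact hT' a (le_trans (le_max_right _ _) ha) hm
    · exact hT a (le_trans (le_max_left _ _) ha) ⟨ℓ', hmem, hm⟩

end UNA

open UNA in
theorem t_UNA : PUna := by
  intro S u hS hNR A hCls hA
  obtain ⟨L, hL⟩ := hCls
  obtain ⟨Y, L', hY, hL', hdec⟩ := decomp S hNR L
  have hAm : ∀ a, a ∈ A ↔ (a ∈ Y ∨ ∃ ℓ ∈ L', ℓ.Mem S a) := fun a =>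
    (hL (fun _ => a)).trans (hdec a)
  -- some line is not bad
  have hex : ∃ ℓ ∈ L', ¬ Bad S Y ℓ := by
    by_contra hcon
    push Not at hcon
    obtain ⟨T, hT⟩ := allBad L' hcon
    exact hA (UP.congr hY T fun a ha => by
      rw [hAm a]
      exact ⟨fun h => h.elim id (hT a ha), Or.inl⟩)
  obtain ⟨ℓ, hℓ, hbad⟩ := hex
  obtain ⟨hp, hq, hP⟩ := hL' ℓ hℓ
  have hv : ∃ N, ∀ s ∈ S, N ≤ s → ∃ a ∈ ℓ.P, ℓ.on s a := by
    rcases dich hS hp hq hP with h | h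
    · exact h
    · exact absurd (bad_of hq (Or.inl h)) hbad
  have hnY : ∃ N, ∀ s ∈ S, N ≤ s → ¬ ∃ a ∈ Y, ℓ.on s a := by
    rcases dich hS hp hq hY with h | h
    · exact absurd (bad_of hq (Or.inr h)) hbad
    · exact h
  obtain ⟨N1, hN1⟩ := hv
  obtain ⟨N2, hN2⟩ := hnY
  obtain ⟨TY, M, hM, hYp⟩ := hY
  obtain ⟨H, hH, TH, hsep⟩ := sepList hS hp hq L' hL'
  have hg : 0 < ℓ.q * (M * H) := Nat.mul_pos hq (Nat.mul_pos hM hH)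
  have hh : 0 < ℓ.p * (M * H) := Nat.mul_pos hp (Nat.mul_pos hM hH)
  obtain ⟨N3, hN3⟩ := hS.res _ hg
  obtain ⟨s1, hs1, hbig⟩ := Sp.inf hS (N1 + N2 + N3 + TH + (ℓ.δ + ℓ.q * (TY + TH)))
  obtain ⟨a1, ha1P, ha1⟩ := hN1 s1 hs1 (by omega)
  have ha1T : TY + TH ≤ a1 := by
    have h1 : s1 ≤ ℓ.p * s1 := Nat.le_mul_of_pos_left s1 hp
    have h2 : ℓ.p * s1 + ℓ.γ = ℓ.δ + ℓ.q * a1 := ha1
    have : ℓ.q * (TY + TH) ≤ ℓ.q * a1 := by omega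
    exact Nat.le_of_mul_le_mul_left this hq
  have ha1Y : a1 ∉ Y := fun h => hN2 s1 hs1 (by omega) ⟨a1, h, ha1⟩
  have hline : ∀ i, ℓ.on (s1 + ℓ.q * (M * H) * i) (a1 + ℓ.p * (M * H) * i) := by
    intro i
    unfold Ln.on at ha1 ⊢
    have : ℓ.p * (s1 + ℓ.q * (M * H) * i) + ℓ.γ =
      (ℓ.p * s1 + ℓ.γ) + ℓ.p * (ℓ.q * (M * H) * i) := by ring
    rw [this, ha1]
    ring
  refine ⟨a1, s1, ℓ.p * (M * H), ℓ.q * (M * H), hh, hg, fun i => ⟨fun h => ?_, fun h => ?_⟩,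
    fun s' hs' hle => ?_⟩
  · rcases (hAm _).1 h with hy | ⟨ℓ', hℓ', -, s', hs', hon'⟩
    · exfalso
      apply ha1Y
      rw [iter hYp (ℓ.p * H * i) a1 (by omega)]
      rwa [show a1 + M * (ℓ.p * H * i) = a1 + ℓ.p * (M * H) * i by ring]
    · have := hsep ℓ' hℓ' s1 hs1 (by omega) s' hs' (a1 + ℓ.p * (M * H) * i)
        (le_trans (by omega : TH ≤ a1) (Nat.le_add_right _ _)) (ℓ.q * (M * H) * i)
        ⟨ℓ.q * M * i, by ring⟩ (hline i) hon'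
      rw [← this]
      exact hs'
  · obtain ⟨a', ha'P, ha'⟩ := hN1 _ h (le_trans (by omega : N1 ≤ s1) (Nat.le_add_right _ _))
    have h1 := hline i
    unfold Ln.on at ha' h1
    have h2 : ℓ.q * a' = ℓ.q * (a1 + ℓ.p * (M * H) * i) := by omega
    have h3 := Nat.eq_of_mul_eq_mul_left hq h2
    rw [hAm]
    right
    refine ⟨ℓ, hℓ, ?_, s1 + ℓ.q * (M * H) * i, h, hline i⟩
    rw [← h3]
    exact ha'P
  · have hm : s1 ≡ s' [MOD (ℓ.q * (M * H))] :=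
      (hN3 s1 hs1 (by omega)).trans (hN3 s' hs' (by omega)).symm
    obtain ⟨i, hi⟩ := (Nat.modEq_iff_dvd' hle).1 hm
    exact ⟨i, by omega⟩

end Pool.Agent.U831.MC
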