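import Pool.Agent.U831.MC.Step
import Pool.Agent.R679.Tr4

set_option autoImplicit false

namespace Pool.Agent.U831.MC

open Pool.Agent.Helper288.Cone
open Pool.Agent.R679.Tr (Transducer Path Family IsCone gen BoundedDeg MinimalWrt mem_gen_iff)

/-- letter transducers as transducers -/
def toTd {X Y : Type} (T : Tr X Y) : Transducer X Y where
  σ := T.σ
  fin := by have := T.fin; infer_instance
  trans := T.step
  start := T.start
  final := T.acc

lemma path_of_run {X Y : Type} (T : Tr X Y) {p q : T.σ} {u : List X} {v : List Y}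
    (h : T.Run p u v q) : Path (toTd T) p u v q := by
  induction h with
  | nil p => exact Path.nil (T := toTd T) p
  | cons ht _ ih => exact Path.cons (T := toTd T) ht ih

lemma run_of_path {X Y : Type} (T : Tr X Y) {p q : (toTd T).σ} {u : List X} {v : List Y}
    (h : Path (toTd T) p u v q) : T.Run p u v q := by
  induction h with
  | nil p => exact Tr.Run.nil (T := T) p
  | cons ht _ ih => exact Tr.Run.cons (T := T) ht ih

lemma toTd_rel {X Y : Type} (T : Tr X Y) (u : List X) (v : List Y) :
    (toTd T).rel u v ↔ T.rel u v := by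
  constructor
  · rintro ⟨p, q, hp, hq, h⟩
    exact ⟨p, q, hp, hq, run_of_path T h⟩
  · rintro ⟨p, q, hp, hq, h⟩
    exact ⟨p, q, hp, hq, path_of_run T h⟩

/-- transducers as letter transducers -/
noncomputable def ofTd {X Y : Type} (T : Transducer X Y) : Tr X Y where
  σ := T.σ
  fin := @Fintype.ofFinite _ T.fin
  step := T.trans
  start := T.start
  acc := T.final

lemma ofTd_rel {X Y : Type} (T : Transducer X Y) (u : List X) (v : List Y) :
    (ofTd T).rel u v ↔ T.rel u v := by
  rw [← toTd_rel]
  rfl

lemma mem_gen_inCone {n m : ℕ} (L : Language (Fin n)) (K : Language (Fin m)) :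
    K ∈ gen L m ↔ InCone L K := by
  rw [mem_gen_iff]
  constructor
  · rintro ⟨T, rfl⟩
    refine InCone_of_tr L (ofTd T) _ (fun v => ?_)
    change (∃ u ∈ L, T.rel u v) ↔ _
    simp only [ofTd_rel]
  · intro h
    obtain ⟨T, hT⟩ := h.exists_tr
    refine ⟨toTd T, ?_⟩
    ext v
    rw [hT]
    change _ ↔ (∃ u ∈ L, (toTd T).rel u v)
    simp only [toTd_rel]

lemma gen_eq {n m : ℕ} {L : Language (Fin n)} {K : Language (Fin m)} (h : InCone L K)
    (h' : InCone K L) : gen K = gen L := by
  funext r
  ext N
  rw [mem_gen_inCone, mem_gen_inCone]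
  exact ⟨fun h1 => h.trans h1, fun h1 => h'.trans h1⟩

lemma isCone_gen {n : ℕ} (L : Language (Fin n)) : IsCone (gen L) := by
  intro n' m' T L' hL' C hC hLC
  exact hC n' m' T L' (hL' C hC hLC)

lemma wpow_split {k : ℕ} {X : Type} (w : Fin k → List X) (n : Fin k → ℕ) (l : Fin k) :
    ∃ x y : List X, ∀ a, wpow w (Function.update n l a) =
      x ++ (List.replicate a (w l)).flatten ++ y := by
  obtain ⟨s, t, hst⟩ := List.append_of_mem (List.mem_finRange l)
  have hnd : (s ++ l :: t).Nodup := by rw [← hst]; exact List.nodup_finRange k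
  have hs : l ∉ s := by
    intro h
    exact (List.nodup_append.1 hnd).2.2 l h l (by simp) rfl
  have ht : l ∉ t := (List.nodup_cons.1 (List.nodup_append.1 hnd).2.1).1
  refine ⟨(s.map fun j => (List.replicate (n j) (w j)).flatten).flatten,
    (t.map fun j => (List.replicate (n j) (w j)).flatten).flatten, fun a => ?_⟩
  have e1 : (s.map fun j => (List.replicate (Function.update n l a j) (w j)).flatten) =
      s.map fun j => (List.replicate (n j) (w j)).flatten := by
    apply List.map_congr_left
    intro j hj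
    have : j ≠ l := by rintro rfl; exact hs hj
    rw [Function.update_of_ne this]
  have e2 : (t.map fun j => (List.replicate (Function.update n l a j) (w j)).flatten) =
      t.map fun j => (List.replicate (n j) (w j)).flatten := by
    apply List.map_congr_left
    intro j hj
    have : j ≠ l := by rintro rfl; exact ht hj
    rw [Function.update_of_ne this]
  unfold wpow
  rw [List.ofFn_eq_map, hst, List.map_append, List.map_cons, List.flatten_append,
    List.flatten_cons, Function.update_self, List.append_assoc, e1, e2]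

/-- the tally language generates a cone that is minimal for bounded languages -/
theorem minimal_tal (hCls : PCls) (hFix : PFix) (hSlc : PSlc) (hStep : PStep) (hRec : PRec)
    (hHit : PHit) (hKbg : PKbg) (hUna : PUna) (hRcv : PRcv) (S : Set ℕ) (u : ℕ → ℕ)
    (hS : Sp S u) (k : ℕ) : MinimalWrt k (gen (tal S)) := by
  intro n L hL hb
  rw [mem_gen_inCone] at hL
  obtain ⟨w, hw⟩ := hb
  have hw' : ∀ v ∈ L, ∃ e, v = wpow w e := hw
  rcases Nat.eq_zero_or_pos k with rfl | hk
  · left
    refine regular_of_rec L w hw' ⟨0, 1, one_pos, fun n b => b.elim0⟩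
  have hC := hCls S k (Fin n) L w hk hL
  by_cases hup : ∀ (e : Fin k → ℕ) (l : Fin k),
      UP {a | Function.update e l a ∈ {e : Fin k → ℕ | wpow w e ∈ L}}
  · left
    exact regular_of_rec L w hw' (hRec hFix hStep S u hS k _ hC hup)
  · right
    push Not at hup
    obtain ⟨e, l, hne⟩ := hup
    have hA := hSlc S k _ l e hC
    obtain ⟨a, s, h, g, -, -, h1, h2⟩ := hUna S u hS (nr_of hHit hKbg hS) _ hA hne
    obtain ⟨x, y, hxy⟩ := wpow_split w e l
    have h1' : ∀ i : ℕ, x ++ (List.replicate (a + h * i) (w l)).flatten ++ y ∈ L ↔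
        s + g * i ∈ S := by
      intro i
      rw [← hxy, ← h1]
      rfl
    have hT : InCone L (tal S) := by
      refine hRcv (Fin n) L S x (w l) y a s h g h1' h2 ?_
      obtain ⟨s', hs', hle⟩ := hS.unb s
      obtain ⟨i, rfl⟩ := h2 s' hs' hle
      exact ⟨_, (h1' i).2 hs'⟩
    exact gen_eq hL hT

lemma bounded_tal (S : Set ℕ) : BoundedDeg 1 (tal S) := by
  refine ⟨fun _ => [0], ?_⟩
  rintro v ⟨s, -, rfl⟩
  refine ⟨fun _ => s, ?_⟩
  simp

theorem main_of (hSet : PSet) (hNrg : PNrg) (hCls : PCls) (hFix : PFix) (hSlc : PSlc)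
    (hRec : PRec) (hHit : PHit) (hKbg : PKbg) (hRig : PRig) (hPig : PPig) (hUna : PUna)
    (hRcv : PRcv) :
    ∃ L : Language (Fin 1), ¬ L.IsRegular ∧ BoundedDeg 1 L ∧ L ∈ gen L 1 ∧ IsCone (gen L) ∧
      ∀ k, MinimalWrt k (gen L) := by
  obtain ⟨S, u, hS⟩ := hSet
  refine ⟨tal S, hNrg S u hS, bounded_tal S, fun C _ h => h, isCone_gen _, fun k => ?_⟩
  exact minimal_tal hCls hFix hSlc (step_of hHit hKbg hRig hPig) hRec hHit hKbg hUna hRcv S u hS k

end Pool.Agent.U831.MC
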