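import Pool.Agent.U831.MC.Stm

set_option autoImplicit false

namespace Pool.Agent.U831.MC

open Pool.Agent.Helper288.Cone

variable {k : ℕ} {S : Set ℕ} {u : ℕ → ℕ}

lemma Sp.unb (h : Sp S u) (B : ℕ) : ∃ s ∈ S, B ≤ s := by
  obtain ⟨y0, hy⟩ := h.hit 2
  obtain ⟨s, hs, h1, h2⟩ := hy (max y0 (2 * B)) (le_max_left _ _)
  have := le_max_right y0 (2 * B)
  exact ⟨s, hs, by omega⟩

lemma Sp.cons (h : Sp S u) {H H' : ℕ} (hH : 0 < H') (hd : H ∣ H') : u H' ≡ u H [MOD H] := by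
  have hH0 : 0 < H := Nat.pos_of_dvd_of_pos hd hH
  obtain ⟨s1, h1⟩ := h.res H hH0
  obtain ⟨s2, h2⟩ := h.res H' hH
  obtain ⟨s, hs, hb⟩ := h.unb (max s1 s2)
  exact ((h2 s hs (le_trans (le_max_right _ _) hb)).of_dvd hd).symm.trans
    (h1 s hs (le_trans (le_max_left _ _) hb))

lemma Pc.val_add (t : Pc k) (x : Fin t.r → ℕ) (ω : Fin t.r) (m : ℕ) :
    t.val (x + Pi.single ω m) = t.val x + m * t.q ω := by
  unfold Pc.val
  have h1 : ∀ r : Fin t.r, (x + Pi.single ω m : Fin t.r → ℕ) r * t.q r =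
      x r * t.q r + (if r = ω then m * t.q ω else 0) := by
    intro r
    by_cases hr : r = ω
    · subst hr; simp; ring
    · simp [hr]
  rw [Finset.sum_congr rfl (fun r _ => h1 r), Finset.sum_add_distrib,
    Finset.sum_ite_eq' Finset.univ ω]
  simp only [Finset.mem_univ, if_true]
  ring

lemma Pc.pt_add (t : Pc k) (x : Fin t.r → ℕ) (ω : Fin t.r) (m : ℕ) :
    t.pt (x + Pi.single ω m) = t.pt x + Pi.single (t.j ω) (m * t.p ω) :=
  lin_add_single t.c t.j t.p x ω m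

lemma Pc.le_val (t : Pc k) (x : Fin t.r → ℕ) (ω : Fin t.r) : x ω * t.q ω ≤ t.val x := by
  unfold Pc.val
  have := Finset.single_le_sum (f := fun r => x r * t.q r) (fun _ _ => Nat.zero_le _)
    (Finset.mem_univ ω)
  exact this.trans (Nat.le_add_left _ _)

lemma Pc.V.of_dvd (h : Sp S u) {t : Pc k} {n : Fin k → ℕ} {H H' : ℕ} (hH : 0 < H')
    (hd : H ∣ H') (hV : t.V u n H') : t.V u n H := by
  obtain ⟨x, hx, rfl⟩ := hV
  exact ⟨x, (hx.of_dvd hd).trans (h.cons hH hd), rfl⟩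

lemma free_mem (h : Sp S u) {t : Pc k} {n : Fin k → ℕ} {H : ℕ} (hH : 0 < H) (ω : Fin t.r)
    (hp : t.p ω = 0) (hd : t.q ω ∣ H) (hV : t.V u n H) : t.Mem S n := by
  obtain ⟨x, hx, rfl⟩ := hV
  obtain ⟨s0, hs0⟩ := h.res H hH
  obtain ⟨s, hs, hb⟩ := h.unb (max s0 (t.val x))
  have hb1 : t.val x ≤ s := le_trans (le_max_right _ _) hb
  have h1 : t.q ω ∣ s - t.val x :=
    (Nat.modEq_iff_dvd' hb1).1
      ((hx.trans (hs0 s hs (le_trans (le_max_left _ _) hb)).symm).of_dvd hd)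
  obtain ⟨m, hm⟩ := h1
  refine ⟨x + Pi.single ω m, ?_, ?_⟩
  · rw [Pc.val_add]
    have : t.val x + m * t.q ω = s := by rw [mul_comm m, ← hm]; omega
    rw [this]; exact hs
  · rw [Pc.pt_add, hp]; simp

/-- a bound -/
def Bd (t : Pc k) (D : ℕ) : ℕ := ∑ i, t.c i + ∑ ω, t.p ω * D + 1

lemma Bd_mono (t : Pc k) {D D' : ℕ} (h : D ≤ D') : Bd t D ≤ Bd t D' := by
  unfold Bd
  have : ∑ ω, t.p ω * D ≤ ∑ ω, t.p ω * D' :=
    Finset.sum_le_sum fun ω _ => Nat.mul_le_mul_left _ h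
  omega

lemma Bd_large (t : Pc k) (D : ℕ) (x : Fin t.r → ℕ) (l : Fin k) (h : Bd t D ≤ t.pt x l) :
    ∃ ω, t.j ω = l ∧ 0 < t.p ω ∧ D ≤ x ω := by
  apply lin_large t.c t.j t.p x l D
  have hc : t.c l ≤ ∑ i, t.c i :=
    Finset.single_le_sum (f := t.c) (fun _ _ => Nat.zero_le _) (Finset.mem_univ l)
  unfold Bd at h
  have h' : ∑ i, t.c i + ∑ ω, t.p ω * D + 1 ≤ lin t.c t.j t.p x l := h
  omega

lemma V_up {t : Pc k} {n : Fin k → ℕ} {l : Fin k} {H D : ℕ}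
    (hD : ∀ ω, 0 < t.p ω → H * t.p ω ∣ D) (hn : Bd t D ≤ n l) (hV : t.V u n H) :
    t.V u (n + Pi.single l D) H := by
  obtain ⟨x, hx, rfl⟩ := hV
  obtain ⟨ω, rfl, h2, -⟩ := Bd_large t D x l hn
  obtain ⟨m, hm⟩ := hD ω h2
  refine ⟨x + Pi.single ω (H * m), ?_, ?_⟩
  · rw [Pc.val_add]
    have : t.val x + H * m * t.q ω ≡ t.val x [MOD H] := by
      rw [mul_assoc]
      exact (Nat.add_mul_mod_self_left _ _ _)
    exact this.trans hx
  · rw [Pc.pt_add, hm]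
    congr 2
    ring

lemma V_down {t : Pc k} {n : Fin k → ℕ} {l : Fin k} {H D : ℕ}
    (hD : ∀ ω, 0 < t.p ω → H * t.p ω ∣ D) (hn : Bd t D ≤ n l)
    (hV : t.V u (n + Pi.single l D) H) : t.V u n H := by
  obtain ⟨x, hx, hxn⟩ := hV
  have hl : Bd t D ≤ t.pt x l := by
    rw [← hxn]; simp; omega
  obtain ⟨ω, rfl, h2, h3⟩ := Bd_large t D x l hl
  obtain ⟨m, hm⟩ := hD ω h2
  have hle : H * m ≤ x ω := by
    have h4 : H * m ≤ D := by
      rw [hm]
      calc H * m = H * 1 * m := by ring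
        _ ≤ H * t.p ω * m := by gcongr; exact h2
    omega
  obtain ⟨x0, hx0, -⟩ := single_decomp x ω (H * m) hle
  refine ⟨x0, ?_, ?_⟩
  · rw [hx0, Pc.val_add] at hx
    have : t.val x0 + H * m * t.q ω ≡ t.val x0 [MOD H] := by
      rw [mul_assoc]
      exact (Nat.add_mul_mod_self_left _ _ _)
    exact this.symm.trans hx
  · rw [hx0, Pc.pt_add] at hxn
    have e : H * m * t.p ω = D := by rw [hm]; ring
    rw [e] at hxn
    exact add_right_cancel hxn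

lemma V_down_iter {t : Pc k} {n : Fin k → ℕ} {l : Fin k} {H D : ℕ}
    (hD : ∀ ω, 0 < t.p ω → H * t.p ω ∣ D) (hn : Bd t D ≤ n l) (w : ℕ)
    (hV : t.V u (n + Pi.single l (w * D)) H) : t.V u n H := by
  induction w with
  | zero => simpa using hV
  | succ w ih =>
    apply ih
    refine V_down (n := (n + Pi.single l (w * D) : Fin k → ℕ)) (l := l) hD ?_ ?_
    · rw [Pi.add_apply]; omega
    · have e : n + Pi.single l (w * D) + Pi.single l D = n + Pi.single l ((w + 1) * D) := by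
        rw [add_assoc, ← Pi.single_add]
        congr 2
        ring
      rw [e]; exact hV

/-- points of a piece for which the generators at `l` that change the value are used little -/
def Pc.Z (S : Set ℕ) (t : Pc k) (l : Fin k) (B : ℕ) (n : Fin k → ℕ) : Prop :=
  ∃ x, t.val x ∈ S ∧ n = t.pt x ∧ ∀ ω, t.j ω = l → 0 < t.p ω → 0 < t.q ω → x ω ≤ B

lemma Pc.Z.mem {t : Pc k} {l : Fin k} {B : ℕ} {n : Fin k → ℕ} (h : t.Z S l B n) : t.Mem S n := by
  obtain ⟨x, h1, h2, -⟩ := h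
  exact ⟨x, h1, h2⟩

lemma Z_up {t : Pc k} {n : Fin k → ℕ} {l : Fin k} {B D : ℕ}
    (hD : ∀ ω, 0 < t.p ω → t.p ω ∣ D) (hn : Bd t (D + B + 1) ≤ n l) (hZ : t.Z S l B n) :
    t.Z S l B (n + Pi.single l D) := by
  obtain ⟨x, hx, rfl, hB⟩ := hZ
  obtain ⟨ω, rfl, h2, h3⟩ := Bd_large t _ x l hn
  have hq : t.q ω = 0 := by
    by_contra hne
    have := hB ω rfl h2 (Nat.pos_of_ne_zero hne)
    omega
  obtain ⟨m, hm⟩ := hD ω h2
  refine ⟨x + Pi.single ω m, ?_, ?_, ?_⟩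
  · rw [Pc.val_add, hq]; simpa using hx
  · rw [Pc.pt_add, hm]
    congr 2
    ring
  · intro ω' h4 h5 h6
    have hne : ω' ≠ ω := by rintro rfl; omega
    rw [Pi.add_apply, Pi.single_eq_of_ne hne, add_zero]
    exact hB ω' h4 h5 h6

lemma Z_down {t : Pc k} {n : Fin k → ℕ} {l : Fin k} {B D : ℕ}
    (hD : ∀ ω, 0 < t.p ω → t.p ω ∣ D) (hn : Bd t (D + B + 1) ≤ n l)
    (hZ : t.Z S l B (n + Pi.single l D)) : t.Z S l B n := by
  obtain ⟨x, hx, hxn, hB⟩ := hZ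
  have hl : Bd t (D + B + 1) ≤ t.pt x l := by
    rw [← hxn]; simp; omega
  obtain ⟨ω, rfl, h2, h3⟩ := Bd_large t _ x l hl
  have hq : t.q ω = 0 := by
    by_contra hne
    have := hB ω rfl h2 (Nat.pos_of_ne_zero hne)
    omega
  obtain ⟨m, hm⟩ := hD ω h2
  have hle : m ≤ x ω := by
    have h4 : m ≤ D := by
      rw [hm]
      exact Nat.le_mul_of_pos_left _ h2
    omega
  obtain ⟨x0, hx0, -⟩ := single_decomp x ω m hle
  refine ⟨x0, ?_, ?_, ?_⟩
  · rw [hx0, Pc.val_add, hq] at hx; simpa using hx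
  · rw [hx0, Pc.pt_add] at hxn
    have e : m * t.p ω = D := by rw [hm]; ring
    rw [e] at hxn
    exact add_right_cancel hxn
  · intro ω' h4 h5 h6
    have := hB ω' h4 h5 h6
    rw [hx0] at this
    simp only [Pi.add_apply] at this
    omega

lemma Z_down_iter {t : Pc k} {n : Fin k → ℕ} {l : Fin k} {B D : ℕ}
    (hD : ∀ ω, 0 < t.p ω → t.p ω ∣ D) (hn : Bd t (D + B + 1) ≤ n l) (w : ℕ)
    (hZ : t.Z S l B (n + Pi.single l (w * D))) : t.Z S l B n := by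
  induction w with
  | zero => simpa using hZ
  | succ w ih =>
    apply ih
    refine Z_down (n := (n + Pi.single l (w * D) : Fin k → ℕ)) (l := l) hD ?_ ?_
    · rw [Pi.add_apply]; omega
    · have e : n + Pi.single l (w * D) + Pi.single l D = n + Pi.single l ((w + 1) * D) := by
        rw [add_assoc, ← Pi.single_add]
        congr 2
        ring
      rw [e]; exact hZ

/-- members have the right residue or are of type `Z` -/
lemma mem_cases {t : Pc k} {n : Fin k → ℕ} (l : Fin k) {H B : ℕ}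
    (hB : ∀ s ∈ S, B ≤ s → s ≡ u H [MOD H]) (h : t.Mem S n) : t.V u n H ∨ t.Z S l B n := by
  obtain ⟨x, hx, rfl⟩ := h
  by_cases hs : B ≤ t.val x
  · left; exact ⟨x, hB _ hx hs, rfl⟩
  · right
    refine ⟨x, hx, rfl, fun ω _ _ hq => ?_⟩
    have h1 := t.le_val x ω
    have h2 : x ω * 1 ≤ x ω * t.q ω := Nat.mul_le_mul_left _ hq
    omega

lemma mem_Z {t : Pc k} {n : Fin k → ℕ} (l : Fin k) (B : ℕ)
    (hq : ∀ ω, t.j ω = l → t.q ω = 0) (h : t.Mem S n) : t.Z S l B n := by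
  obtain ⟨x, hx, rfl⟩ := h
  refine ⟨x, hx, rfl, fun ω h1 _ h3 => ?_⟩
  rw [hq ω h1] at h3; omega

/-- classification -/
lemma not_rig {t : Pc k} {l : Fin k} (h : ¬ Rig t l) :
    (∃ ω, t.p ω = 0 ∧ 0 < t.q ω) ∨ ((∀ ω, t.p ω = 0 → t.q ω = 0) ∧
      ((∀ ω, t.j ω = l → t.q ω = 0) ∨ ∃ ω ω', t.j ω = l ∧ t.j ω' = l ∧ 0 < t.p ω ∧ 0 < t.p ω' ∧
        t.q ω * t.p ω' ≠ t.q ω' * t.p ω)) := by
  by_cases h1 : ∃ ω, t.p ω = 0 ∧ 0 < t.q ω
  · left; exact h1
  · right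
    push Not at h1
    have h1' : ∀ ω, t.p ω = 0 → t.q ω = 0 := fun ω hω => by have := h1 ω hω; omega
    refine ⟨h1', ?_⟩
    by_cases h2 : ∀ ω, t.j ω = l → t.q ω = 0
    · left; exact h2
    · right
      push Not at h2
      obtain ⟨ω0, h3, h4⟩ := h2
      have hp0 : 0 < t.p ω0 := by
        by_contra hcon
        exact h4 (h1' ω0 (by omega))
      by_contra hcon
      push Not at hcon
      apply h
      refine ⟨h1', ω0, h3, Nat.pos_of_ne_zero h4, hp0, fun ω hω => ?_⟩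
      rcases Nat.eq_zero_or_pos (t.p ω) with h5 | h5
      · rw [h5, h1' ω h5]; simp
      · exact hcon ω ω0 hω h3 h5 hp0

/-- good multiples -/
structure GQ (t : Pc k) (Q : ℕ) : Prop where
  hp : ∀ ω, 0 < t.p ω → t.p ω ∣ Q
  hq : ∀ ω, 0 < t.q ω → t.q ω ∣ Q
  hg : ∀ ω ω' : Fin t.r, ∀ g : ℕ, 0 < g → t.q ω * t.p ω' + g = t.q ω' * t.p ω → g ∣ Q

lemma GQ.mono {t : Pc k} {Q Q' : ℕ} (h : GQ t Q) (hd : Q ∣ Q') : GQ t Q' :=
  ⟨fun ω h1 => (h.hp ω h1).trans hd, fun ω h1 => (h.hq ω h1).trans hd,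
    fun ω ω' g h1 h2 => (h.hg ω ω' g h1 h2).trans hd⟩

lemma bd_list {α : Type} (L : List α) (P : α → ℕ → Prop)
    (mono : ∀ t N N', N ≤ N' → P t N → P t N') (h : ∀ t ∈ L, ∃ N, P t N) :
    ∃ N, ∀ t ∈ L, P t N := by
  induction L with
  | nil => exact ⟨0, by simp⟩
  | cons a L ih =>
    obtain ⟨N, hN⟩ := ih (fun t ht => h t (List.mem_cons_of_mem _ ht))
    obtain ⟨N', hN'⟩ := h a List.mem_cons_self
    refine ⟨max N N', fun t ht => ?_⟩
    rcases List.mem_cons.1 ht with rfl | ht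
    · exact mono _ _ _ (le_max_right _ _) hN'
    · exact mono _ _ _ (le_max_left _ _) (hN t ht)

lemma exists_GQ (t : Pc k) : ∃ N : ℕ, GQ t N.factorial := by
  refine ⟨∑ ω, t.p ω + ∑ ω, t.q ω + ∑ ω, ∑ ω', t.q ω' * t.p ω, ?_, ?_, ?_⟩
  · intro ω h
    have := Finset.single_le_sum (f := t.p) (fun _ _ => Nat.zero_le _) (Finset.mem_univ ω)
    exact Nat.dvd_factorial h (by omega)
  · intro ω h
    have := Finset.single_le_sum (f := t.q) (fun _ _ => Nat.zero_le _) (Finset.mem_univ ω)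
    exact Nat.dvd_factorial h (by omega)
  · intro ω ω' g h1 h2
    have h3 := Finset.single_le_sum (f := fun ω => ∑ ω', t.q ω' * t.p ω)
      (fun _ _ => Nat.zero_le _) (Finset.mem_univ ω)
    have h4 := Finset.single_le_sum (f := fun ω' => t.q ω' * t.p ω)
      (fun _ _ => Nat.zero_le _) (Finset.mem_univ ω')
    exact Nat.dvd_factorial h1 (by omega)

lemma exists_Q (L : List (Pc k)) : ∃ Q : ℕ, 0 < Q ∧ ∀ t ∈ L, GQ t Q := by
  obtain ⟨N, hN⟩ := bd_list L (fun t N => GQ t N.factorial)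
    (fun t N N' hle h => h.mono (Nat.factorial_dvd_factorial hle)) (fun t _ => exists_GQ t)
  exact ⟨N.factorial, Nat.factorial_pos _, hN⟩

end Pool.Agent.U831.MC
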