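import Pool.Agent.U831.MC.Red

set_option autoImplicit false

namespace Pool.Agent.U831.MC

open Pool.Agent.Helper288.Cone

variable {k : ℕ} {S : Set ℕ} {u : ℕ → ℕ}

/-- the main claim -/
theorem claim (hHit : PHit) (hKbg : PKbg) (hRig : PRig) (hPig : PPig) (hS : Sp S u)
    (L : List (Pc k)) (Q : ℕ) (hQ : 0 < Q) (hG : ∀ t ∈ L, GQ t Q)
    (hsl : ∀ (n : Fin k → ℕ) (l : Fin k), UP {a | ∃ t ∈ L, t.Mem S (Function.update n l a)})
    (m : ℕ) : ∃ N : ℕ, ∀ n : Fin k → ℕ, (∀ i, N ≤ n i) → ∀ t ∈ L, ∀ ω : Fin t.r,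
      0 < t.p ω → 0 < t.q ω → (Finset.univ.filter fun i => n (t.j ω) < n i).card < m →
      t.V u n (Q ^ (2 * m + 1)) → ∃ t' ∈ L, t'.Mem S n := by
  induction m with
  | zero => exact ⟨0, fun n _ t _ ω _ _ h => absurd h (Nat.not_lt_zero _)⟩
  | succ m ih =>
    obtain ⟨N1, hN1⟩ := ih
    have hH1 : 0 < Q ^ (2 * m + 1) := Nat.pow_pos hQ
    obtain ⟨B, hB⟩ := hS.res (Q ^ (2 * m + 1)) hH1
    -- bound from the pieces with two slopes
    obtain ⟨N2, hN2⟩ := bd_list L (fun t N => (∀ ω, t.p ω = 0 → t.q ω = 0) →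
      ∀ (n : Fin k → ℕ) (l : Fin k) (ω₁ ω₂ : Fin t.r), N ≤ n l → t.j ω₁ = l → t.j ω₂ = l →
      0 < t.p ω₁ → 0 < t.p ω₂ → t.q ω₁ * t.p ω₂ ≠ t.q ω₂ * t.p ω₁ →
      (∀ ω, 0 < t.q ω → n (t.j ω) ≤ n l) → t.V u n Q → t.Mem S n)
      (fun t N N' hle h h0 n l ω₁ ω₂ hn => h h0 n l ω₁ ω₂ (hle.trans hn))
      (fun t ht => by
        by_cases h0 : ∀ ω, t.p ω = 0 → t.q ω = 0
        · obtain ⟨N, hN⟩ := hKbg hHit S u hS k t Q hQ (hG t ht).hg h0
          exact ⟨N, fun _ => hN⟩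
        · exact ⟨0, fun h => absurd h h0⟩)
    -- bound for the reductions
    obtain ⟨N3, hN3⟩ := bd_list L (fun t N => Bd t (Q ^ (2 * m + 2) + B + 1) ≤ N)
      (fun t N N' hle h => le_trans h hle) (fun t _ => ⟨_, le_refl _⟩)
    refine ⟨max N1 (max N2 N3), fun n hn t ht ω hp hq hcard hV => ?_⟩
    have hn1 : ∀ i, N1 ≤ n i := fun i => le_trans (le_max_left _ _) (hn i)
    have hn2 : ∀ i, N2 ≤ n i := fun i =>
      le_trans (le_trans (le_max_left _ _) (le_max_right _ _)) (hn i)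
    have hn3 : ∀ i, N3 ≤ n i := fun i =>
      le_trans (le_trans (le_max_right _ _) (le_max_right _ _)) (hn i)
    have hdvd : t.q ω * Q ^ (2 * m + 2) ∣ Q ^ (2 * (m + 1) + 1) := by
      have e : Q ^ (2 * (m + 1) + 1) = Q * Q ^ (2 * m + 2) := by ring
      rw [e]
      exact Nat.mul_dvd_mul_right ((hG t ht).hq ω hq) _
    obtain ⟨w, t', ht', hmem, hnr⟩ := hPig hRig S u hS k L t ω n (Q ^ (2 * (m + 1) + 1))
      (Q ^ (2 * m + 2)) ht hp hq (Nat.pow_pos hQ) (Nat.pow_pos hQ) hdvd hV (hsl n (t.j ω))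
    have hGt := hG t' ht'
    have hD : ∀ ω', 0 < t'.p ω' → Q ^ (2 * m + 1) * t'.p ω' ∣ Q ^ (2 * m + 2) := by
      intro ω' h
      have e : Q ^ (2 * m + 2) = Q ^ (2 * m + 1) * Q := by ring
      rw [e]
      exact Nat.mul_dvd_mul_left _ (hGt.hp ω' h)
    have hD' : ∀ ω', 0 < t'.p ω' → t'.p ω' ∣ Q ^ (2 * m + 2) := fun ω' h =>
      (Dvd.intro_left _ rfl).trans (hD ω' h)
    have hbd : Bd t' (Q ^ (2 * m + 2) + B + 1) ≤ n (t.j ω) := (hN3 t' ht').trans (hn3 _)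
    have hbd' : Bd t' (Q ^ (2 * m + 2)) ≤ n (t.j ω) :=
      (Bd_mono t' (by omega)).trans hbd
    have hZ : t'.Z S (t.j ω) B (n + Pi.single (t.j ω) (w * Q ^ (2 * m + 2))) →
        ∃ t' ∈ L, t'.Mem S n := fun hZ => ⟨t', ht', (Z_down_iter hD' hbd w hZ).mem⟩
    have hQd : Q ∣ Q ^ (2 * m + 1) := dvd_pow_self Q (by omega)
    rcases mem_cases (t.j ω) hB hmem with hV' | hZ'
    swap
    · exact hZ hZ'
    have hVn := V_down_iter hD hbd' w hV'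
    rcases not_rig hnr with ⟨ω', h1, h2⟩ | ⟨hnf, h1 | ⟨ω₁, ω₂, h1, h2, h3, h4, h5⟩⟩
    · exact ⟨t', ht', free_mem hS hH1 ω' h1 ((hGt.hq ω' h2).trans hQd) hVn⟩
    · exact hZ (mem_Z _ B h1 hmem)
    · by_cases hmax : ∀ ω', 0 < t'.q ω' → n (t'.j ω') ≤ n (t.j ω)
      · exact ⟨t', ht', hN2 t' ht' hnf n (t.j ω) ω₁ ω₂ (hn2 _) h1 h2 h3 h4 h5 hmax
          (hVn.of_dvd hS hH1 hQd)⟩
      · push Not at hmax
        obtain ⟨ω', h6, h7⟩ := hmax
        have hp' : 0 < t'.p ω' := by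
          by_contra hcon
          have := hnf ω' (by omega)
          omega
        refine hN1 n hn1 t' ht' ω' hp' h6 ?_ hVn
        have hlt : (Finset.univ.filter fun i => n (t'.j ω') < n i).card <
            (Finset.univ.filter fun i => n (t.j ω) < n i).card := by
          apply Finset.card_lt_card
          rw [Finset.ssubset_iff_of_subset]
          · exact ⟨t'.j ω', by simp [h7], by simp⟩
          · intro i hi
            rw [Finset.mem_filter] at hi ⊢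
            exact ⟨hi.1, h7.trans hi.2⟩
        omega

/-- from right residue to membership -/
theorem claim' (hHit : PHit) (hKbg : PKbg) (hRig : PRig) (hPig : PPig) (hS : Sp S u)
    (L : List (Pc k)) (Q : ℕ) (hQ : 0 < Q) (hG : ∀ t ∈ L, GQ t Q)
    (hsl : ∀ (n : Fin k → ℕ) (l : Fin k), UP {a | ∃ t ∈ L, t.Mem S (Function.update n l a)}) :
    ∃ N : ℕ, ∀ n : Fin k → ℕ, (∀ i, N ≤ n i) → ∀ t ∈ L, (∃ ω : Fin t.r, 0 < t.q ω) →
      t.V u n (Q ^ (2 * (k + 1) + 1)) → ∃ t' ∈ L, t'.Mem S n := by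
  obtain ⟨N, hN⟩ := claim hHit hKbg hRig hPig hS L Q hQ hG hsl (k + 1)
  refine ⟨N, fun n hn t ht ⟨ω, hω⟩ hV => ?_⟩
  rcases Nat.eq_zero_or_pos (t.p ω) with hp | hp
  · exact ⟨t, ht, free_mem hS (Nat.pow_pos hQ) ω hp
      (((hG t ht).hq ω hω).trans (dvd_pow_self Q (by omega))) hV⟩
  · refine hN n hn t ht ω hp hω ?_ hV
    have := Finset.card_filter_le (Finset.univ : Finset (Fin k)) (fun i => n (t.j ω) < n i)
    rw [Finset.card_univ, Fintype.card_fin] at this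
    omega

theorem step_of (hHit : PHit) (hKbg : PKbg) (hRig : PRig) (hPig : PPig) : PStep := by
  intro S u hS k K hK hsl
  obtain ⟨L, hL⟩ := hK
  obtain ⟨Q, hQ, hG⟩ := exists_Q L
  have hsl' : ∀ (n : Fin k → ℕ) (l : Fin k),
      UP {a | ∃ t ∈ L, t.Mem S (Function.update n l a)} := by
    intro n l
    have e : {a | ∃ t ∈ L, t.Mem S (Function.update n l a)} =
        {a | Function.update n l a ∈ K} := by
      ext a; exact (hL _).symm
    rw [e]; exact hsl n l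
  obtain ⟨N1, hN1⟩ := claim' hHit hKbg hRig hPig hS L Q hQ hG hsl'
  set H := Q ^ (2 * (k + 1) + 1) with hHdef
  have hH : 0 < H := Nat.pow_pos hQ
  obtain ⟨B, hB⟩ := hS.res H hH
  obtain ⟨N3, hN3⟩ := bd_list L (fun t N => Bd t (H * Q + B + 1) ≤ N)
    (fun t N N' hle h => le_trans h hle) (fun t _ => ⟨_, le_refl _⟩)
  refine ⟨max N1 N3, H * Q, Nat.mul_pos hH hQ, fun n hn i => ?_⟩
  have hn1 : ∀ i, N1 ≤ n i := fun i => le_trans (le_max_left _ _) (hn i)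
  have hn3 : ∀ i, N3 ≤ n i := fun i => le_trans (le_max_right _ _) (hn i)
  have hn1' : ∀ j, N1 ≤ (n + Pi.single i (H * Q) : Fin k → ℕ) j := fun j => by
    rw [Pi.add_apply]; have := hn1 j; omega
  have hall : ∀ t ∈ L, (∀ ω', 0 < t.p ω' → H * t.p ω' ∣ H * Q) ∧
      (∀ ω', 0 < t.p ω' → t.p ω' ∣ H * Q) ∧ Bd t (H * Q + B + 1) ≤ n i ∧ Bd t (H * Q) ≤ n i := by
    intro t ht
    refine ⟨fun ω' h => Nat.mul_dvd_mul_left _ ((hG t ht).hp ω' h),
      fun ω' h => ((hG t ht).hp ω' h).trans (Dvd.intro_left _ rfl),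
      (hN3 t ht).trans (hn3 i), (Bd_mono t (by omega)).trans ((hN3 t ht).trans (hn3 i))⟩
  rw [hL, hL]
  constructor
  · rintro ⟨t, ht, hmem⟩
    obtain ⟨h1, h2, h3, h4⟩ := hall t ht
    by_cases hω : ∃ ω : Fin t.r, 0 < t.q ω
    · rcases mem_cases i hB hmem with hV | hZ
      · exact hN1 _ hn1' t ht hω (V_up h1 h4 hV)
      · exact ⟨t, ht, (Z_up h2 h3 hZ).mem⟩
    · push Not at hω
      exact ⟨t, ht, (Z_up h2 h3 (mem_Z i B (fun ω _ => by have := hω ω; omega) hmem)).mem⟩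
  · rintro ⟨t, ht, hmem⟩
    obtain ⟨h1, h2, h3, h4⟩ := hall t ht
    by_cases hω : ∃ ω : Fin t.r, 0 < t.q ω
    · rcases mem_cases i hB hmem with hV | hZ
      · exact hN1 _ hn1 t ht hω (V_down h1 h4 hV)
      · exact ⟨t, ht, (Z_down h2 h3 hZ).mem⟩
    · push Not at hω
      exact ⟨t, ht, (Z_down h2 h3 (mem_Z i B (fun ω _ => by have := hω ω; omega) hmem)).mem⟩

/-- unary pieces that are not rigid are eventually periodic -/
theorem nr_of (hHit : PHit) (hKbg : PKbg) (hS : Sp S u) (t : Pc 1) (hnr : ¬ Rig t 0) :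
    UP {a | t.Mem S (fun _ => a)} := by
  obtain ⟨Q, hQ, hG⟩ := exists_Q [t]
  have hGt := hG t List.mem_cons_self
  obtain ⟨B, hB⟩ := hS.res Q hQ
  have hup : ∀ a : ℕ, (fun _ => a + Q * Q : Fin 1 → ℕ) =
      (fun _ => a : Fin 1 → ℕ) + Pi.single 0 (Q * Q) := by
    intro a; funext i; rw [Subsingleton.elim i 0]; simp
  have h1 : ∀ ω', 0 < t.p ω' → Q * t.p ω' ∣ Q * Q := fun ω' h =>
    Nat.mul_dvd_mul_left _ (hGt.hp ω' h)
  have h2 : ∀ ω', 0 < t.p ω' → t.p ω' ∣ Q * Q := fun ω' h =>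
    (hGt.hp ω' h).trans (Dvd.intro_left _ rfl)
  -- membership criterion
  have key : ∃ N, ∀ n : Fin 1 → ℕ, N ≤ n 0 → (∃ ω, 0 < t.q ω) → (∀ ω, t.p ω = 0 → t.q ω = 0) ∧
      (∀ ω, t.j ω = 0 → t.q ω = 0) ∨ (t.V u n Q → t.Mem S n) := by
    rcases not_rig hnr with ⟨ω', h3, h4⟩ | ⟨hnf, h3 | ⟨ω₁, ω₂, h3, h4, h5, h6, h7⟩⟩
    · exact ⟨0, fun n _ _ => Or.inr (free_mem hS hQ ω' h3 (hGt.hq ω' h4))⟩
    · exact ⟨0, fun n _ _ => Or.inl ⟨hnf, h3⟩⟩
    · obtain ⟨N, hN⟩ := hKbg hHit S u hS 1 t Q hQ hGt.hg hnf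
      refine ⟨N, fun n hn _ => Or.inr fun hV => hN n 0 ω₁ ω₂ hn h3 h4 h5 h6 h7 ?_ hV⟩
      intro ω _
      rw [Subsingleton.elim (t.j ω) 0]
  obtain ⟨N, hN⟩ := key
  refine ⟨max N (Bd t (Q * Q + B + 1)), Q * Q, Nat.mul_pos hQ hQ, fun a ha => ?_⟩
  have ha1 : N ≤ a := le_trans (le_max_left _ _) ha
  have ha2 : Bd t (Q * Q + B + 1) ≤ a := le_trans (le_max_right _ _) ha
  have ha3 : Bd t (Q * Q) ≤ a := (Bd_mono t (by omega)).trans ha2
  have hq0 : ∀ n : Fin 1 → ℕ, N ≤ n 0 → ¬ (t.V u n Q → t.Mem S n) →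
      ∀ ω, t.j ω = 0 → t.q ω = 0 := by
    intro n hn hne ω _
    by_contra hcon
    rcases hN n hn ⟨ω, Nat.pos_of_ne_zero hcon⟩ with ⟨-, h⟩ | h
    · exact hcon (h ω (Subsingleton.elim _ _))
    · exact hne h
  change t.Mem S (fun _ => a) ↔ t.Mem S (fun _ => a + Q * Q)
  rw [hup]
  constructor
  · intro hmem
    rcases mem_cases (0 : Fin 1) hB hmem with hV | hZ
    · by_cases hc : t.V u ((fun _ => a : Fin 1 → ℕ) + Pi.single 0 (Q * Q)) Q →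
        t.Mem S ((fun _ => a : Fin 1 → ℕ) + Pi.single 0 (Q * Q))
      · exact hc (V_up h1 ha3 hV)
      · have := hq0 _ (by simp; omega) hc
        exact (Z_up h2 ha2 (mem_Z 0 B this hmem)).mem
    · exact (Z_up h2 ha2 hZ).mem
  · intro hmem
    rcases mem_cases (0 : Fin 1) hB hmem with hV | hZ
    · by_cases hc : t.V u (fun _ => a : Fin 1 → ℕ) Q → t.Mem S (fun _ => a : Fin 1 → ℕ)
      · exact hc (V_down h1 ha3 hV)
      · have := hq0 _ ha1 hc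
        exact (Z_down h2 ha2 (mem_Z 0 B this hmem)).mem
    · exact (Z_down h2 ha2 hZ).mem

end Pool.Agent.U831.MC
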